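import Pool.Agent.Q77.BT.Stm

/-!
# Project BT: frames
-/

set_option autoImplicit false

open MeasureTheory Set Metric Filter Topology
open scoped NNReal RealInnerProductSpace

noncomputable section

namespace Pool.Agent.Q77.BT

variable {m n : ℕ}

theorem inner_ad (ι : Fr m n) (v : E n) (p : E m) : ⟪ad ι v, p⟫ = ⟪v, ι p⟫ := by
  unfold ad
  rw [ContinuousLinearMap.adjoint_inner_left]
  rfl

theorem ad_map (ι : Fr m n) (p : E m) : ad ι (ι p) = p := by
  apply ext_inner_right ℝ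
  intro q
  rw [inner_ad, LinearIsometry.inner_map_map]

theorem off_apply (ι : Fr m n) (v : E n) : off ι v = v - ι (ad ι v) := rfl

theorem decomp (ι : Fr m n) (v : E n) : ι (ad ι v) + off ι v = v := by
  rw [off_apply]; abel

theorem off_map (ι : Fr m n) (p : E m) : off ι (ι p) = 0 := by
  rw [off_apply, ad_map, sub_self]

theorem ad_off (ι : Fr m n) (v : E n) : ad ι (off ι v) = 0 := by
  rw [off_apply, map_sub, ad_map, sub_self]

theorem inner_map_off (ι : Fr m n) (p : E m) (v : E n) : ⟪ι p, off ι v⟫ = 0 := by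
  rw [real_inner_comm, ← inner_ad, ad_off, inner_zero_left]

theorem pyth_aux (ι : Fr m n) (p : E m) (v : E n) :
    ‖ι p + off ι v‖ ^ 2 = ‖p‖ ^ 2 + ‖off ι v‖ ^ 2 := by
  have h := norm_add_sq_real (ι p) (off ι v)
  rw [inner_map_off, LinearIsometry.norm_map] at h
  linarith

theorem pyth (ι : Fr m n) (v : E n) : ‖v‖ ^ 2 = ‖ad ι v‖ ^ 2 + ‖off ι v‖ ^ 2 := by
  have h := pyth_aux ι (ad ι v) v
  rwa [decomp] at h

/-- the distance to a point of the plane -/
theorem pyth_sub (ι : Fr m n) (v : E n) (p : E m) :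
    ‖v - ι p‖ ^ 2 = ‖ad ι v - p‖ ^ 2 + ‖off ι v‖ ^ 2 := by
  have h := pyth_aux ι (ad ι v - p) v
  have h2 : ι (ad ι v - p) + off ι v = v - ι p := by
    rw [map_sub, off_apply]; abel
  rwa [h2] at h

theorem norm_ad_le (ι : Fr m n) (v : E n) : ‖ad ι v‖ ≤ ‖v‖ := by
  have h := pyth ι v
  exact le_of_sq_le_sq (by nlinarith [sq_nonneg ‖off ι v‖]) (norm_nonneg _)

theorem norm_off_le (ι : Fr m n) (v : E n) : ‖off ι v‖ ≤ ‖v‖ := by
  have h := pyth ι v
  exact le_of_sq_le_sq (by nlinarith [sq_nonneg ‖ad ι v‖]) (norm_nonneg _)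

theorem norm_off_le_sub (ι : Fr m n) (v : E n) (p : E m) : ‖off ι v‖ ≤ ‖v - ι p‖ := by
  have h := pyth_sub ι v p
  exact le_of_sq_le_sq (by nlinarith [sq_nonneg ‖ad ι v - p‖]) (norm_nonneg _)

theorem norm_ad_sub_le (ι : Fr m n) (v : E n) (p : E m) : ‖ad ι v - p‖ ≤ ‖v - ι p‖ := by
  have h := pyth_sub ι v p
  exact le_of_sq_le_sq (by nlinarith [sq_nonneg ‖off ι v‖]) (norm_nonneg _)

theorem norm_le_add (ι : Fr m n) (v : E n) : ‖v‖ ≤ ‖ad ι v‖ + ‖off ι v‖ := by
  calc ‖v‖ = ‖ι (ad ι v) + off ι v‖ := by rw [decomp]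
    _ ≤ ‖ι (ad ι v)‖ + ‖off ι v‖ := norm_add_le _ _
    _ = _ := by rw [LinearIsometry.norm_map]

theorem infDist_eq (ι : Fr m n) (x z : E n) :
    infDist z {w | w - x ∈ LinearMap.range ι.toLinearMap} = ‖off ι (z - x)‖ := by
  apply le_antisymm
  · have hmem : x + ι (ad ι (z - x)) ∈ {w | w - x ∈ LinearMap.range ι.toLinearMap} := by
      show x + ι (ad ι (z - x)) - x ∈ LinearMap.range ι.toLinearMap
      rw [add_sub_cancel_left]
      exact ⟨_, rfl⟩
    refine (infDist_le_dist_of_mem hmem).trans ?_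
    rw [dist_eq_norm, off_apply, sub_add_eq_sub_sub]
  · have hne : ({w | w - x ∈ LinearMap.range ι.toLinearMap} : Set (E n)).Nonempty :=
      ⟨x, by
        show x - x ∈ LinearMap.range ι.toLinearMap
        rw [sub_self]; exact Submodule.zero_mem _⟩
    rw [le_infDist hne]
    rintro w ⟨p, hp⟩
    have hp' : ι p = w - x := hp
    have := norm_off_le_sub ι (z - x) p
    rw [hp'] at this
    rwa [dist_eq_norm, show z - w = z - x - (w - x) by abel]

theorem exists_frame (P : Submodule ℝ (E n)) (hP : Module.finrank ℝ P = m) :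
    ∃ ι : Fr m n, LinearMap.range ι.toLinearMap = P := by
  have e : E m ≃ₗᵢ[ℝ] P := by
    subst hP
    exact (stdOrthonormalBasis ℝ P).repr.symm
  refine ⟨P.subtypeₗᵢ.comp e.toLinearIsometry, ?_⟩
  ext v
  constructor
  · rintro ⟨p, rfl⟩
    exact (e p).2
  · intro hv
    refine ⟨e.symm ⟨v, hv⟩, ?_⟩
    show ((e (e.symm ⟨v, hv⟩) : P) : E n) = v
    rw [LinearIsometryEquiv.apply_symm_apply]

theorem finrank_range (ι : Fr m n) : Module.finrank ℝ (LinearMap.range ι.toLinearMap) = m := by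
  rw [LinearMap.finrank_range_of_inj ι.injective, finrank_euclideanSpace, Fintype.card_fin]

theorem Cht.small {M : Set (E n)} {h : E m → E n} {z0 : E n} {t0 : ℝ} (H : Cht M h z0 t0)
    {y : E m} (hy : ‖y‖ ≤ 1) (hd : dist (h y) z0 ≤ 2 * t0) : ‖y‖ ≤ 1 / 2 := by
  obtain ⟨y', h1, h2⟩ := H.surj (h y) (H.maps y hy) hd
  have h3 : y' = y := by
    apply H.inj _ _ h2
    · rw [mem_closedBall_zero_iff]; linarith
    · rw [mem_closedBall_zero_iff]; exact hy
  rw [← h3]; exact h1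

theorem isOpen_UU {F : E m → E n} (hF : Continuous F) {O : Set (E n)} (hO : IsOpen O) :
    IsOpen (UU F O) :=
  (isOpen_lt continuous_norm continuous_const).inter (hO.preimage hF)

theorem bounded_UU (F : E m → E n) (O : Set (E n)) : Bornology.IsBounded (UU F O) :=
  isBounded_closedBall.subset (fun y hy => by
    rw [mem_closedBall_zero_iff]; exact le_of_lt hy.1 : UU F O ⊆ closedBall 0 1)

end Pool.Agent.Q77.BT
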