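import Pool.Agent.Q77.BT.Base

/-!
# Project BT: the core of the local-to-global step
-/

set_option autoImplicit false

open MeasureTheory Set Metric Filter Topology
open scoped NNReal RealInnerProductSpace

noncomputable section

namespace Pool.Agent.Q77.BT

variable {m n : ℕ}

/-- open cylinder -/
def Cy (ι : Fr m n) (x : E n) (ε : ℝ) : Set (E n) :=
  {w | dist w x < 2 * ε ∧ ‖ad ι (w - x)‖ < ε}

/-- closed cylinder -/
def Dy (ι : Fr m n) (x : E n) (ε : ℝ) : Set (E n) :=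
  {w | dist w x ≤ 2 * ε ∧ ‖ad ι (w - x)‖ ≤ ε}

theorem isOpen_Cy (ι : Fr m n) (x : E n) (ε : ℝ) : IsOpen (Cy ι x ε) := by
  have h1 : Continuous fun w : E n => dist w x := continuous_id.dist continuous_const
  have h2 : Continuous fun w : E n => ‖ad ι (w - x)‖ :=
    ((ad ι).continuous.comp (continuous_id.sub continuous_const)).norm
  exact (isOpen_lt h1 continuous_const).inter (isOpen_lt h2 continuous_const)

theorem isClosed_Dy (ι : Fr m n) (x : E n) (ε : ℝ) : IsClosed (Dy ι x ε) := by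
  have h1 : Continuous fun w : E n => dist w x := continuous_id.dist continuous_const
  have h2 : Continuous fun w : E n => ‖ad ι (w - x)‖ :=
    ((ad ι).continuous.comp (continuous_id.sub continuous_const)).norm
  exact (isClosed_le h1 continuous_const).inter (isClosed_le h2 continuous_const)

theorem Cy_sub_Dy (ι : Fr m n) (x : E n) (ε : ℝ) : Cy ι x ε ⊆ Dy ι x ε :=
  fun _ hw => ⟨hw.1.le, hw.2.le⟩

/-- the data of the core argument -/
structure Core {m n : ℕ} (M : Set (E n)) (h F : E m → E n) (z0 : E n) (t0 δ ε s0 κ Λ η : ℝ)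
    (N : ℕ) (x : Fin N → E n) (ι : Fin N → Fr m n) (G : E n → E m) : Prop where
  cht : Cht M h z0 t0
  δpos : 0 < δ
  δle : δ ≤ 1 / 1000
  εpos : 0 < ε
  ε20 : 20 * ε ≤ t0
  κpos : 0 < κ
  κle : κ ≤ 1
  ηpos : 0 < η
  s0le : s0 ≤ 1 / 2
  ηle : 4 * η ≤ s0
  Λ0 : 0 ≤ Λ
  Λle : Λ * (21 * δ) ≤ κ / 4
  smF : ContDiff ℝ 1 F
  near : ∀ y, ‖y‖ ≤ 1 → ‖F y - h y‖ ≤ δ * ε
  small : ∀ y : E m, ‖y‖ ≤ s0 → dist (F y) z0 < t0
  smG : ContDiff ℝ 1 G
  lip : ∀ z z', ‖G z - G z'‖ ≤ Λ * η / ε * ‖z - z'‖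
  close : ∀ y : E m, ‖y‖ ≤ 1 → ‖G (F y) - y‖ ≤ 3 * η
  wall : ∀ k z, |‖ad (ι k) (z - x k)‖ - ε| ≤ 22 * δ * ε → ‖off (ι k) (z - x k)‖ ≤ 22 * δ * ε →
    κ * η ≤ ‖G z‖
  xd : ∀ k, dist (x k) z0 ≤ t0 / 2
  flat : ∀ k, Fl M (x k) (20 * ε) δ (ι k)
  cover : ∀ y : E m, ‖y‖ < 1 → ‖G (F y)‖ < κ * η → ∃ k, dist (F y) (x k) < ε / 2

section

variable {M : Set (E n)} {h F : E m → E n} {z0 : E n} {t0 δ ε s0 κ Λ η : ℝ}
  {N : ℕ} {x : Fin N → E n} {ι : Fin N → Fr m n} {G : E n → E m}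

theorem Core.slab (H : Core M h F z0 t0 δ ε s0 κ Λ η N x ι G) {k : Fin N} {y : E m} (hy : ‖y‖ ≤ 1)
    (hd : dist (F y) (x k) ≤ 10 * ε) : ‖off (ι k) (F y - x k)‖ ≤ 21 * δ * ε := by
  have h1 := H.near y hy
  have hε := H.εpos
  have hδ := H.δle
  have h2 : dist (h y) (x k) ≤ 20 * ε := by
    calc dist (h y) (x k) ≤ dist (h y) (F y) + dist (F y) (x k) := dist_triangle _ _ _
      _ ≤ δ * ε + 10 * ε := by
        rw [dist_comm (h y), dist_eq_norm (F y) (h y)]; linarith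
      _ ≤ 20 * ε := by nlinarith
  have h3 := H.flat k (h y) (H.cht.maps y hy) h2
  have h4 : off (ι k) (F y - x k) = off (ι k) (F y - h y) + off (ι k) (h y - x k) := by
    rw [← map_add]; congr 1; abel
  rw [h4]
  calc _ ≤ ‖off (ι k) (F y - h y)‖ + ‖off (ι k) (h y - x k)‖ := norm_add_le _ _
    _ ≤ δ * ε + δ * (20 * ε) := add_le_add ((norm_off_le _ _).trans h1) h3
    _ = _ := by ring

theorem Core.Gdiff (H : Core M h F z0 t0 δ ε s0 κ Λ η N x ι G) {z z' : E n}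
    (hz : ‖z - z'‖ ≤ 21 * δ * ε) : ‖G z - G z'‖ ≤ κ * η / 4 := by
  have h1 := H.lip z z'
  have hε := H.εpos
  have hη := H.ηpos
  have hΛ := H.Λle
  have hΛ0 : 0 ≤ Λ * η / ε := div_nonneg (mul_nonneg H.Λ0 hη.le) hε.le
  calc ‖G z - G z'‖ ≤ Λ * η / ε * ‖z - z'‖ := h1
    _ ≤ Λ * η / ε * (21 * δ * ε) := mul_le_mul_of_nonneg_left hz hΛ0
    _ = Λ * (21 * δ) * η := by field_simp
    _ ≤ κ / 4 * η := mul_le_mul_of_nonneg_right hΛ hη.le
    _ = _ := by ring

/-- the set of the piece `k` -/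
def OO (x : Fin N → E n) (ι : Fin N → Fr m n) (ε : ℝ) (k : Fin N) : Set (E n) :=
  {w | w ∈ Cy (ι k) (x k) ε ∧ ∀ j, j < k → w ∉ Dy (ι j) (x j) ε}

theorem isOpen_OO (x : Fin N → E n) (ι : Fin N → Fr m n) (ε : ℝ) (k : Fin N) :
    IsOpen (OO x ι ε k) := by
  have : OO x ι ε k = Cy (ι k) (x k) ε ∩ ⋂ j ∈ {j : Fin N | j < k}, (Dy (ι j) (x j) ε)ᶜ := by
    ext w
    simp [OO]
  rw [this]
  exact (isOpen_Cy _ _ _).inter
    ((Set.toFinite _).isOpen_biInter fun j _ => (isClosed_Dy _ _ _).isOpen_compl)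

/-- norm of a point near the plane -/
theorem Core.norm_le (H : Core M h F z0 t0 δ ε s0 κ Λ η N x ι G) {k : Fin N} {y : E m}
    (hy : ‖y‖ ≤ 1) (hd : dist (F y) (x k) ≤ 10 * ε) :
    dist (F y) (x k) ≤ ‖ad (ι k) (F y - x k)‖ + 21 * δ * ε := by
  rw [dist_eq_norm]
  exact (norm_le_add _ _).trans (add_le_add le_rfl (H.slab hy hd))

/-- boundary of the closed cylinder -/
theorem Core.bdry (H : Core M h F z0 t0 δ ε s0 κ Λ η N x ι G) {k : Fin N} {y : E m}
    (hy : ‖y‖ ≤ 1) (hd : dist (F y) (x k) ≤ 10 * ε)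
    (h1 : |‖ad (ι k) (F y - x k)‖ - ε| ≤ 22 * δ * ε) : κ * η ≤ ‖G (F y)‖ := by
  have hε := H.εpos
  have hδ := H.δpos
  refine H.wall k (F y) h1 ((H.slab hy hd).trans ?_)
  nlinarith

/-- a point in the closed cylinder but not in the open one -/
theorem Core.bdry2 (H : Core M h F z0 t0 δ ε s0 κ Λ η N x ι G) {k : Fin N} {y : E m}
    (hy : ‖y‖ ≤ 1) (h1 : F y ∈ Dy (ι k) (x k) ε) (h2 : F y ∉ Cy (ι k) (x k) ε) :
    κ * η ≤ ‖G (F y)‖ := by
  have hε := H.εpos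
  have hδ := H.δpos
  have hδ2 := H.δle
  have hd : dist (F y) (x k) ≤ 10 * ε := h1.1.trans (by linarith)
  have h3 := H.norm_le hy hd
  have h4 : dist (F y) (x k) < 2 * ε := by nlinarith [h1.2]
  have h5 : ε ≤ ‖ad (ι k) (F y - x k)‖ := by
    by_contra h6
    push Not at h6
    exact h2 ⟨h4, h6⟩
  apply H.bdry hy hd
  rw [abs_le]
  constructor
  · nlinarith
  · nlinarith [h1.2]

/-- the pieces cover the zeros -/
theorem Core.exists_piece (H : Core M h F z0 t0 δ ε s0 κ Λ η N x ι G) {y : E m}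
    (hy : ‖y‖ < 1) (hG : ‖G (F y)‖ < κ * η) : ∃ k, F y ∈ OO x ι ε k := by
  classical
  have hε := H.εpos
  obtain ⟨k0, hk0⟩ := H.cover y hy hG
  have h0 : F y ∈ Cy (ι k0) (x k0) ε := by
    refine ⟨by linarith, ?_⟩
    calc _ ≤ ‖F y - x k0‖ := norm_ad_le _ _
      _ = dist (F y) (x k0) := (dist_eq_norm _ _).symm
      _ < ε := by linarith
  have hne : (Finset.univ.filter fun k => F y ∈ Cy (ι k) (x k) ε).Nonempty :=
    ⟨k0, by simp [h0]⟩
  obtain ⟨k, hk, hmin⟩ := Finset.exists_min_image _ (fun k => k) hne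
  refine ⟨k, (Finset.mem_filter.mp hk).2, fun j hj hD => ?_⟩
  have h1 : F y ∉ Cy (ι j) (x j) ε := by
    intro h2
    have := hmin j (by simp [h2])
    exact absurd hj (not_lt.mpr this)
  have := H.bdry2 hy.le hD h1
  linarith

theorem piece_unique {y : E m} {k k' : Fin N} (h1 : F y ∈ OO x ι ε k)
    (h2 : F y ∈ OO x ι ε k') : k = k' := by
  rcases lt_trichotomy k k' with h | h | h
  · exact absurd (Cy_sub_Dy _ _ _ h1.1) (h2.2 k h)
  · exact h
  · exact absurd (Cy_sub_Dy _ _ _ h2.1) (h1.2 k' h)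

/-- the projection to the plane `k` -/
def Pr (ι : Fr m n) (x : E n) (w : E n) : E n := x + ι (ad ι (w - x))

theorem sub_Pr (ι : Fr m n) (x w : E n) : w - Pr ι x w = off ι (w - x) := by
  rw [off_apply]; unfold Pr; abel

/-- the set in the plane of the piece `k` -/
def SS (x : Fin N → E n) (ι : Fin N → Fr m n) (ε : ℝ) (k : Fin N) : Set (E m) :=
  {p | ‖p‖ < ε ∧ ∀ j, j < k → x k + ι k p ∉ Dy (ι j) (x j) ε}

/-- collar -/
theorem Core.collar (H : Core M h F z0 t0 δ ε s0 κ Λ η N x ι G) {k : Fin N} {y : E m}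
    (hy : ‖y‖ ≤ 1) (h1 : F y ∉ OO x ι ε k) {w : E n} (hw : w ∈ OO x ι ε k)
    (hd : dist (F y) w < δ * ε) : κ * η ≤ ‖G (F y)‖ ∧ dist (F y) (x k) ≤ 10 * ε := by
  have hε := H.εpos
  have hδ := H.δpos
  have hδ2 := H.δle
  have hdε : δ * ε ≤ ε / 1000 := by nlinarith
  have hk : dist (F y) (x k) ≤ 10 * ε := by
    calc _ ≤ dist (F y) w + dist w (x k) := dist_triangle _ _ _
      _ ≤ 10 * ε := by linarith [hw.1.1]
  refine ⟨?_, hk⟩
  have hadk : ∀ j, |‖ad (ι j) (F y - x j)‖ - ‖ad (ι j) (w - x j)‖| ≤ δ * ε := by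
    intro j
    refine (abs_norm_sub_norm_le _ _).trans ?_
    rw [← map_sub]
    refine (norm_ad_le _ _).trans ?_
    rw [show F y - x j - (w - x j) = F y - w by abel, ← dist_eq_norm]
    exact hd.le
  by_cases hC : F y ∈ Cy (ι k) (x k) ε
  · have : ∃ j, j < k ∧ F y ∈ Dy (ι j) (x j) ε := by
      by_contra hno
      push Not at hno
      exact h1 ⟨hC, hno⟩
    obtain ⟨j, hj, hD⟩ := this
    have hdj : dist (F y) (x j) ≤ 10 * ε := hD.1.trans (by linarith)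
    have h3 := H.norm_le hy hdj
    have h4 := hw.2 j hj
    have h5 : dist w (x j) ≤ 2 * ε := by
      calc _ ≤ dist w (F y) + dist (F y) (x j) := dist_triangle _ _ _
        _ ≤ 2 * ε := by rw [dist_comm w]; nlinarith [hD.2]
    have h6 : ε < ‖ad (ι j) (w - x j)‖ := by
      by_contra h7
      push Not at h7
      exact h4 ⟨h5, h7⟩
    apply H.bdry hy hdj
    have h8 := abs_le.mp (hadk j)
    rw [abs_le]
    constructor
    · nlinarith [h8.1]
    · nlinarith [hD.2]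
  · have h3 := H.norm_le hy hk
    have h8 := abs_le.mp (hadk k)
    have h4 : dist (F y) (x k) < 2 * ε := by nlinarith [hw.1.2, h8.2]
    have h5 : ε ≤ ‖ad (ι k) (F y - x k)‖ := by
      by_contra h6
      push Not at h6
      exact hC ⟨h4, h6⟩
    apply H.bdry hy hk
    rw [abs_le]
    constructor
    · nlinarith
    · nlinarith [h8.2, hw.1.2]

/-- near the zeros the piece can be seen in the plane -/
theorem Core.piece_iff (H : Core M h F z0 t0 δ ε s0 κ Λ η N x ι G) {k : Fin N} {y : E m}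
    (hy : ‖y‖ ≤ 1) (hG : ‖G (Pr (ι k) (x k) (F y))‖ < κ * η / 4) (hd : dist (F y) (x k) ≤ 10 * ε) :
    F y ∈ OO x ι ε k ↔ ad (ι k) (F y - x k) ∈ SS x ι ε k := by
  have hε := H.εpos
  have hδ := H.δpos
  have hδ2 := H.δle
  have hdε : δ * ε ≤ ε / 1000 := by nlinarith
  have hsub : ‖F y - Pr (ι k) (x k) (F y)‖ ≤ 21 * δ * ε := by
    rw [sub_Pr]; exact H.slab hy hd
  have hGF : ‖G (F y)‖ < κ * η := by
    have h1 := H.Gdiff hsub
    have h2 : ‖G (F y)‖ ≤ ‖G (F y) - G (Pr (ι k) (x k) (F y))‖ + ‖G (Pr (ι k) (x k) (F y))‖ := by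
      calc ‖G (F y)‖ = ‖(G (F y) - G (Pr (ι k) (x k) (F y))) + G (Pr (ι k) (x k) (F y))‖ := by
            congr 1; abel
        _ ≤ _ := norm_add_le _ _
    have := mul_pos H.κpos H.ηpos
    linarith
  have hadj : ∀ j, |‖ad (ι j) (F y - x j)‖ - ‖ad (ι j) (Pr (ι k) (x k) (F y) - x j)‖| ≤
      21 * δ * ε := by
    intro j
    refine (abs_norm_sub_norm_le _ _).trans ?_
    rw [← map_sub]
    refine (norm_ad_le _ _).trans ?_
    rw [show F y - x j - (Pr (ι k) (x k) (F y) - x j) = F y - Pr (ι k) (x k) (F y) by abel]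
    exact hsub
  have hdistj : ∀ j, dist (F y) (x j) ≤ dist (Pr (ι k) (x k) (F y)) (x j) + 21 * δ * ε := by
    intro j
    calc _ ≤ dist (F y) (Pr (ι k) (x k) (F y)) + dist (Pr (ι k) (x k) (F y)) (x j) :=
          dist_triangle _ _ _
      _ ≤ _ := by rw [dist_eq_norm (F y)]; linarith
  have hdistj' : ∀ j, dist (Pr (ι k) (x k) (F y)) (x j) ≤ dist (F y) (x j) + 21 * δ * ε := by
    intro j
    calc _ ≤ dist (Pr (ι k) (x k) (F y)) (F y) + dist (F y) (x j) :=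
          dist_triangle _ _ _
      _ ≤ _ := by rw [dist_comm (Pr (ι k) (x k) (F y)), dist_eq_norm (F y)]; linarith
  constructor
  · intro h1
    refine ⟨h1.1.2, fun j hj hD => ?_⟩
    change Pr (ι k) (x k) (F y) ∈ Dy (ι j) (x j) ε at hD
    have h2 := hdistj j
    have h3 : dist (F y) (x j) ≤ 10 * ε := by nlinarith [hD.1]
    have h4 := H.norm_le hy h3
    have h5 := abs_le.mp (hadj j)
    have h6 : dist (F y) (x j) ≤ 2 * ε := by nlinarith [hD.2, h5.2]
    have h7 : ε < ‖ad (ι j) (F y - x j)‖ := by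
      by_contra h8
      push Not at h8
      exact h1.2 j hj ⟨h6, h8⟩
    have h9 : κ * η ≤ ‖G (F y)‖ := by
      apply H.bdry hy h3
      rw [abs_le]
      constructor
      · nlinarith
      · nlinarith [hD.2, h5.2]
    linarith
  · intro h1
    have h2 := H.norm_le hy hd
    refine ⟨⟨by nlinarith [h1.1], h1.1⟩, fun j hj hD => ?_⟩
    have h3 : dist (F y) (x j) ≤ 10 * ε := hD.1.trans (by linarith)
    have h4 := H.norm_le hy h3
    have h5 := abs_le.mp (hadj j)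
    have h6 : dist (Pr (ι k) (x k) (F y)) (x j) ≤ 2 * ε := by nlinarith [hdistj' j, hD.2]
    have h7 : ε < ‖ad (ι j) (Pr (ι k) (x k) (F y) - x j)‖ := by
      by_contra h8
      push Not at h8
      exact h1.2 j hj ⟨h6, h8⟩
    have h9 : κ * η ≤ ‖G (F y)‖ := by
      apply H.bdry hy h3
      rw [abs_le]
      constructor
      · nlinarith [h5.1]
      · nlinarith [hD.2]
    linarith

end

end Pool.Agent.Q77.BT
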