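import Pool.Agent.Q77.BT.Core

/-!
# Project BT: the core of the local-to-global step, integrals
-/

set_option autoImplicit false

open MeasureTheory Set Metric Filter Topology
open scoped NNReal RealInnerProductSpace

noncomputable section

namespace Pool.Agent.Q77.BT

variable {m n : ℕ}

theorem contDiff_ad {F : E m → E n} (hF : ContDiff ℝ 1 F) (ι : Fr m n) (x : E n) :
    ContDiff ℝ 1 (fun y => ad ι (F y - x)) :=
  (ad ι).contDiff.comp (hF.sub contDiff_const)

theorem contDiff_Ga {G : E n → E m} (hG : ContDiff ℝ 1 G) (ι : Fr m n) (x : E n) :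
    ContDiff ℝ 1 (fun p : E m => G (x + ι p)) :=
  hG.comp (contDiff_const.add ι.toContinuousLinearMap.contDiff)

theorem det_comp {f : E m → E m} {g : E m → E m} (hf : ContDiff ℝ 1 f) (hg : ContDiff ℝ 1 g)
    (y : E m) : (fderiv ℝ (fun y => g (f y)) y).det =
      (fderiv ℝ g (f y)).det * (fderiv ℝ f y).det := by
  have h1 : fderiv ℝ (fun y => g (f y)) y = (fderiv ℝ g (f y)).comp (fderiv ℝ f y) :=
    fderiv_comp y (hg.differentiable one_ne_zero _) (hf.differentiable one_ne_zero _)
  rw [h1]
  exact LinearMap.det_comp _ _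

theorem continuous_det {f : E m → E m} (hf : ContDiff ℝ 1 f) :
    Continuous fun y => (fderiv ℝ f y).det :=
  ContinuousLinearMap.continuous_det.comp (hf.continuous_fderiv one_ne_zero)

/-- the test function -/
def tf (ρ : ℝ) (w : E m) : ℝ := max 0 (ρ - ‖w‖)

theorem continuous_tf (ρ : ℝ) : Continuous (tf ρ : E m → ℝ) :=
  continuous_const.max (continuous_const.sub continuous_norm)

theorem tf_zero {ρ : ℝ} {w : E m} (h : ρ ≤ ‖w‖) : tf ρ w = 0 := max_eq_left (by linarith)

theorem tf_nonneg (ρ : ℝ) (w : E m) : 0 ≤ tf ρ w := le_max_left _ _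

theorem tf_pos {ρ : ℝ} {w : E m} (h : ‖w‖ < ρ) : 0 < tf ρ w := lt_max_of_lt_right (by linarith)

theorem norm_lt_of_tf {ρ : ℝ} {w : E m} (h : tf ρ w ≠ 0) : ‖w‖ < ρ := by
  by_contra h1
  push Not at h1
  exact h (tf_zero h1)

theorem integrableOn_of_cont {f : E m → ℝ} (hf : Continuous f) {U : Set (E m)}
    (hU : Bornology.IsBounded U) : IntegrableOn f U volume := by
  obtain ⟨R, hR⟩ := hU.subset_closedBall 0
  exact (hf.continuousOn.integrableOn_compact (isCompact_closedBall 0 R)).mono_set hR

section

variable {M : Set (E n)} {h F : E m → E n} {z0 : E n} {t0 δ ε s0 κ Λ η : ℝ}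
  {N : ℕ} {x : Fin N → E n} {ι : Fin N → Fr m n} {G : E n → E m}

/-- the integral over a piece vanishes -/
theorem Core.piece_zero (hHM : S_HM) (hMS : S_MS)
    (H : Core M h F z0 t0 δ ε s0 κ Λ η N x ι G) (hz : ∀ k, ¬ NZ F (ι k) (x k) (20 * ε))
    (k : Fin N) : dg F (OO x ι ε k) (fun y => G (F y)) (tf (κ * η / 4)) = 0 := by
  have hε := H.εpos
  have hδ := H.δpos
  have hδ2 := H.δle
  have hη := H.ηpos
  have hκ := H.κpos
  have hκη := mul_pos hκ hη
  set f : E m → E m := fun y => ad (ι k) (F y - x k) with hf
  set Γ : E m → E m := fun p => G (x k + ι k p) with hΓ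
  have hfc : ContDiff ℝ 1 f := contDiff_ad H.smF _ _
  have hΓc : ContDiff ℝ 1 Γ := contDiff_Ga H.smG _ _
  have hPr : ∀ y, Γ (f y) = G (Pr (ι k) (x k) (F y)) := fun y => rfl
  -- first step: homotopy
  have step1 : dg F (OO x ι ε k) (fun y => G (F y)) (tf (κ * η / 4)) =
      dg F (OO x ι ε k) (fun y => Γ (f y)) (tf (κ * η / 4)) := by
    refine hHM m n F H.smF.continuous _ (isOpen_OO _ _ _ _) ?_ (δ * ε) (by positivity)
      (fun y => Γ (f y)) (fun y => G (F y)) (hΓc.comp hfc) (H.smG.comp H.smF) (κ * η / 4) 0
      (by positivity) ?_ _ (continuous_tf _) ?_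
    · rintro y ⟨hy1, hy2⟩
      apply H.cht.small hy1.le
      have h1 := H.near y hy1.le
      have h2 := H.xd k
      have h3 := hy2.1.1
      have h4 := H.ε20
      calc dist (h y) z0 ≤ dist (h y) (F y) + dist (F y) (x k) + dist (x k) z0 :=
            dist_triangle4 _ _ _ _
        _ ≤ δ * ε + 2 * ε + t0 / 2 := by
            rw [dist_comm (h y), dist_eq_norm (F y) (h y)]; linarith
        _ ≤ 2 * t0 := by nlinarith
    · rintro y hy1 hy2 ⟨w, hw, hd⟩ s hs
      obtain ⟨h1, h2⟩ := H.collar hy1.le hy2 hw hd
      have h3 : ‖G (F y) - Γ (f y)‖ ≤ κ * η / 4 := by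
        rw [hPr]
        apply H.Gdiff
        rw [sub_Pr]; exact H.slab hy1.le h2
      have h4 : Γ (f y) + s • (G (F y) - Γ (f y)) - 0 =
          G (F y) - (1 - s) • (G (F y) - Γ (f y)) := by
        rw [sub_smul, one_smul]; abel
      rw [h4]
      have h5 : ‖(1 - s) • (G (F y) - Γ (f y))‖ ≤ κ * η / 4 := by
        rw [norm_smul, Real.norm_of_nonneg (by linarith [hs.2])]
        have := norm_nonneg (G (F y) - Γ (f y))
        nlinarith [hs.1, hs.2]
      have h6 := norm_sub_norm_le (G (F y)) ((1 - s) • (G (F y) - Γ (f y)))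
      linarith
    · intro w hw
      rw [sub_zero] at hw
      exact tf_zero hw
  rw [step1]
  -- second step
  set ψ : E m → ℝ := fun p => (SS x ι ε k).indicator (fun p => tf (κ * η / 4) (Γ p) *
    (fderiv ℝ Γ p).det) p with hψ
  have hSm : MeasurableSet (SS x ι ε k) := by
    have : SS x ι ε k = {p | ‖p‖ < ε} ∩ ⋂ j ∈ {j : Fin N | j < k},
        {p | x k + ι k p ∈ (Dy (ι j) (x j) ε)ᶜ} := by
      ext w
      simp [SS]
    rw [this]
    refine IsOpen.measurableSet ((isOpen_lt continuous_norm continuous_const).inter
      ((Set.toFinite _).isOpen_biInter fun j _ => ?_))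
    exact (isClosed_Dy _ _ _).isOpen_compl.preimage
      (continuous_const.add (ι k).continuous)
  have hcont : Continuous fun p => tf (κ * η / 4) (Γ p) * (fderiv ℝ Γ p).det :=
    ((continuous_tf _).comp hΓc.continuous).mul (continuous_det hΓc)
  have hzero : ∀ φ : E m → ℝ, Continuous φ → (∀ w, 2 * ε ≤ ‖w‖ → φ w = 0) →
      ∫ y in UU F (ball (x k) (10 * ε)), φ (f y) * (fderiv ℝ f y).det = 0 := by
    intro φ hφ hφ0
    by_contra hne
    apply hz k
    refine ⟨φ, hφ, fun p hp => hφ0 p (by linarith), ?_⟩
    unfold dg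
    rw [show 20 * ε / 2 = 10 * ε by ring]
    exact hne
  have hms := hMS m (UU F (ball (x k) (10 * ε))) f (fun y => (fderiv ℝ f y).det)
    (isOpen_UU H.smF.continuous isOpen_ball) (bounded_UU _ _) hfc.continuous (continuous_det hfc)
    (2 * ε) ε (by linarith) hzero ψ (hcont.measurable.indicator hSm) ?_ ?_
  · rw [← hms]
    unfold dg
    rw [← integral_indicator (isOpen_UU H.smF.continuous (isOpen_OO _ _ _ _)).measurableSet,
      ← integral_indicator (isOpen_UU H.smF.continuous isOpen_ball).measurableSet]
    congr 1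
    ext y
    simp only [indicator]
    rw [det_comp hfc hΓc]
    by_cases hy : ‖y‖ < 1
    · by_cases hG : tf (κ * η / 4) (Γ (f y)) = 0
      · have h1 : ψ (f y) = 0 := by
          simp only [hψ, indicator]
          split_ifs
          · rw [hG, zero_mul]
          · rfl
        rw [hG, h1]
        simp
      · have hG' := norm_lt_of_tf hG
        rw [hPr] at hG'
        by_cases hd : dist (F y) (x k) < 10 * ε
        · have hiff := H.piece_iff hy.le hG' hd.le
          have hmem : y ∈ UU F (ball (x k) (10 * ε)) := ⟨hy, hd⟩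
          rw [if_pos hmem]
          by_cases hS : f y ∈ SS x ι ε k
          · have h1 : y ∈ UU F (OO x ι ε k) := ⟨hy, hiff.mpr hS⟩
            rw [if_pos h1]
            simp only [hψ, indicator]
            rw [if_pos hS]
            ring
          · have h1 : y ∉ UU F (OO x ι ε k) := fun h2 => hS (hiff.mp h2.2)
            rw [if_neg h1]
            simp only [hψ, indicator]
            rw [if_neg hS, zero_mul]
        · have h1 : y ∉ UU F (OO x ι ε k) := by
            intro h2
            have := h2.2.1.1
            linarith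
          have h2 : y ∉ UU F (ball (x k) (10 * ε)) := fun h3 => hd h3.2
          rw [if_neg h1, if_neg h2]
    · have h1 : y ∉ UU F (OO x ι ε k) := fun h2 => hy h2.1
      have h2 : y ∉ UU F (ball (x k) (10 * ε)) := fun h3 => hy h3.1
      rw [if_neg h1, if_neg h2]
  · obtain ⟨C, hC⟩ := (isCompact_closedBall (0 : E m) ε).exists_bound_of_continuousOn
      hcont.continuousOn
    refine ⟨max C 0, fun w => ?_⟩
    simp only [hψ, indicator]
    split_ifs with hw
    · exact (hC w (by rw [mem_closedBall_zero_iff]; exact hw.1.le)).trans (le_max_left _ _)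
    · simp
  · intro w hw
    simp only [hψ, indicator]
    rw [if_neg]
    intro h1
    linarith [h1.1]

/-- the core of the local-to-global step -/
theorem core (hHM : S_HM) (hMS : S_MS) (H : Core M h F z0 t0 δ ε s0 κ Λ η N x ι G)
    (hz : ∀ k, ¬ NZ F (ι k) (x k) (20 * ε)) : False := by
  have hε := H.εpos
  have hδ := H.δpos
  have hδ2 := H.δle
  have hη := H.ηpos
  have hκ := H.κpos
  have hκη := mul_pos hκ hη
  have hκη1 : κ * η ≤ η := by nlinarith [H.κle]
  have ht0 := H.cht.pos
  -- homotopy to the identity
  have step1 : dg F (ball z0 t0) (fun y => G (F y)) (tf (κ * η / 4)) =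
      dg F (ball z0 t0) (fun y => y) (tf (κ * η / 4)) := by
    refine hHM m n F H.smF.continuous _ isOpen_ball ?_ 1 one_pos
      (fun y => y) (fun y => G (F y)) contDiff_id (H.smG.comp H.smF) (κ * η / 4) 0
      (by positivity) ?_ _ (continuous_tf _) ?_
    · rintro y ⟨hy1, hy2⟩
      apply H.cht.small hy1.le
      have h1 := H.near y hy1.le
      have h4 := H.ε20
      calc dist (h y) z0 ≤ dist (h y) (F y) + dist (F y) z0 := dist_triangle _ _ _
        _ ≤ δ * ε + t0 := by
            rw [dist_comm (h y), dist_eq_norm (F y) (h y)]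
            exact add_le_add h1 (le_of_lt hy2)
        _ ≤ 2 * t0 := by nlinarith
    · rintro y hy1 hy2 - s hs
      have h1 := H.close y hy1.le
      have h2 : s0 < ‖y‖ := by
        by_contra h3
        push Not at h3
        exact hy2 (H.small y h3)
      have h4 : y + s • (G (F y) - y) - 0 = y - (-s) • (G (F y) - y) := by
        rw [neg_smul]; abel
      rw [h4]
      have h5 : ‖(-s) • (G (F y) - y)‖ ≤ 3 * η := by
        rw [norm_smul, norm_neg, Real.norm_of_nonneg hs.1]
        have := norm_nonneg (G (F y) - y)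
        nlinarith [hs.1, hs.2]
      have h6 := norm_sub_norm_le y ((-s) • (G (F y) - y))
      have := H.ηle
      linarith
    · intro w hw
      rw [sub_zero] at hw
      exact tf_zero hw
  -- the integral of the test function is positive
  have hpos : 0 < dg F (ball z0 t0) (fun y => y) (tf (κ * η / 4)) := by
    unfold dg
    have h1 : ∀ y : E m, tf (κ * η / 4) y * (fderiv ℝ (fun y : E m => y) y).det =
        tf (κ * η / 4) y := by
      intro y
      have : fderiv ℝ (fun y : E m => y) y = ContinuousLinearMap.id ℝ (E m) := fderiv_id'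
      rw [this]
      have h2 : (ContinuousLinearMap.id ℝ (E m)).det = 1 := LinearMap.det_id
      rw [h2, mul_one]
    simp_rw [h1]
    rw [setIntegral_pos_iff_support_of_nonneg_ae (ae_of_all _ fun w => tf_nonneg _ w)
      (integrableOn_of_cont (continuous_tf _) (bounded_UU _ _))]
    have h2 : ball (0 : E m) (κ * η / 4) ⊆ Function.support (tf (κ * η / 4)) ∩
        UU F (ball z0 t0) := by
      intro y hy
      rw [mem_ball_zero_iff] at hy
      have hs := H.ηle
      have hs1 := H.s0le
      refine ⟨ne_of_gt (tf_pos hy), by linarith, H.small y (by linarith)⟩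
    exact (measure_ball_pos volume _ (by positivity)).trans_le (measure_mono h2)
  rw [← step1] at hpos
  -- decomposition
  have hdec : dg F (ball z0 t0) (fun y => G (F y)) (tf (κ * η / 4)) =
      ∑ k, dg F (OO x ι ε k) (fun y => G (F y)) (tf (κ * η / 4)) := by
    unfold dg
    have hc : Continuous fun y => tf (κ * η / 4) (G (F y)) *
        (fderiv ℝ (fun y => G (F y)) y).det :=
      ((continuous_tf _).comp (H.smG.continuous.comp H.smF.continuous)).mul
        (continuous_det (H.smG.comp H.smF))
    rw [← integral_indicator (isOpen_UU H.smF.continuous isOpen_ball).measurableSet]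
    simp_rw [← integral_indicator
      (isOpen_UU H.smF.continuous (isOpen_OO x ι ε _)).measurableSet]
    rw [← integral_finset_sum]
    · congr 1
      ext y
      by_cases hG : tf (κ * η / 4) (G (F y)) = 0
      · simp only [indicator, hG, zero_mul, ite_self, Finset.sum_const_zero]
      · have hG' := norm_lt_of_tf hG
        by_cases hy : ‖y‖ < 1
        · have hlt : ‖G (F y)‖ < κ * η := by linarith
          obtain ⟨k, hk⟩ := H.exists_piece hy hlt
          have hball : F y ∈ ball z0 t0 := by
            apply H.small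
            have h1 := H.close y hy.le
            have h2 : ‖y‖ ≤ ‖G (F y) - y‖ + ‖G (F y)‖ := by
              calc ‖y‖ = ‖G (F y) - (G (F y) - y)‖ := by congr 1; abel
                _ ≤ ‖G (F y)‖ + ‖G (F y) - y‖ := norm_sub_le _ _
                _ = _ := add_comm _ _
            have := H.ηle
            linarith
          rw [Finset.sum_eq_single k]
          · have h1 : y ∈ UU F (OO x ι ε k) := ⟨hy, hk⟩
            have h2 : y ∈ UU F (ball z0 t0) := ⟨hy, hball⟩
            rw [indicator_of_mem h1, indicator_of_mem h2]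
          · intro j _ hj
            apply indicator_of_notMem
            intro h1
            exact hj (piece_unique h1.2 hk)
          · intro h1
            exact absurd (Finset.mem_univ k) h1
        · have h1 : y ∉ UU F (ball z0 t0) := fun h2 => hy h2.1
          rw [indicator_of_notMem h1]
          symm
          apply Finset.sum_eq_zero
          intro k _
          exact indicator_of_notMem (fun h2 => hy h2.1) _
    · intro k _
      rw [integrable_indicator_iff
        (isOpen_UU H.smF.continuous (isOpen_OO x ι ε _)).measurableSet]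
      exact integrableOn_of_cont hc (bounded_UU _ _)
  rw [hdec, Finset.sum_eq_zero (fun k _ => H.piece_zero hHM hMS hz k)] at hpos
  exact lt_irrefl _ hpos

end

end Pool.Agent.Q77.BT
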