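import Pool.Agent.Q77.BT.Core2

/-!
# Project BT: comparison of degrees
-/

set_option autoImplicit false

open MeasureTheory Set Metric Filter Topology
open scoped NNReal RealInnerProductSpace

noncomputable section

namespace Pool.Agent.Q77.BT

variable {m n : ℕ}

section

variable {M : Set (E n)} {h F : E m → E n} {z0 : E n} {t0 δ : ℝ} {x : E n} {t : ℝ} {ι : Fr m n}

theorem Pair.slab (H : Pair M h F z0 t0 δ x t ι) (hδ : 0 < δ) (hδ2 : δ ≤ 1 / 10000) {y : E m}
    (hy : ‖y‖ ≤ 1) (hd : dist (F y) x ≤ 3 / 4 * t) : ‖off ι (F y - x)‖ ≤ 2 * δ * t := by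
  have h1 := H.near y hy
  have ht := H.tpos
  have h2 : dist (h y) x ≤ t := by
    calc dist (h y) x ≤ dist (h y) (F y) + dist (F y) x := dist_triangle _ _ _
      _ ≤ δ * t + 3 / 4 * t := by
        rw [dist_comm (h y), dist_eq_norm (F y) (h y)]; linarith
      _ ≤ t := by nlinarith
  have h3 := H.flat (h y) (H.cht.maps y hy) h2
  have h4 : off ι (F y - x) = off ι (F y - h y) + off ι (h y - x) := by
    rw [← map_add]; congr 1; abel
  rw [h4]
  calc _ ≤ ‖off ι (F y - h y)‖ + ‖off ι (h y - x)‖ := norm_add_le _ _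
    _ ≤ δ * t + δ * t := add_le_add ((norm_off_le _ _).trans h1) h3
    _ = _ := by ring

theorem Pair.uu (H : Pair M h F z0 t0 δ x t ι) (hδ2 : δ ≤ 1 / 10000) {y : E m}
    (hy : y ∈ UU F (ball x (t / 2))) : ‖y‖ ≤ 1 / 2 := by
  apply H.cht.small hy.1.le
  have h1 := H.near y hy.1.le
  have h2 := H.dist_le
  have h3 := H.le
  have h4 := H.tpos
  have h5 : dist (F y) x < t / 2 := hy.2
  calc dist (h y) z0 ≤ dist (h y) (F y) + dist (F y) x + dist x z0 := dist_triangle4 _ _ _ _
    _ ≤ δ * t + t / 2 + t0 := by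
        rw [dist_comm (h y), dist_eq_norm (F y) (h y)]; linarith
    _ ≤ 2 * t0 := by nlinarith

theorem Pair.norm_ge (H : Pair M h F z0 t0 δ x t ι) (hδ : 0 < δ) (hδ2 : δ ≤ 1 / 10000) {y : E m}
    (hy : ‖y‖ ≤ 1) (h1 : t / 2 ≤ dist (F y) x) (h2 : dist (F y) x ≤ t / 2 + δ * t) :
    (48 / 100) * t ≤ ‖ad ι (F y - x)‖ := by
  have ht := H.tpos
  have h3 := H.slab hδ hδ2 hy (by nlinarith)
  have h4 := norm_le_add ι (F y - x)
  rw [← dist_eq_norm] at h4
  nlinarith

theorem Pair.prop (hPR : S_PR) (H : Pair M h F z0 t0 δ x t ι) (hδ : 0 < δ)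
    (hδ2 : δ ≤ 1 / 10000) :
    ∃ d : ℝ, ∀ φ : E m → ℝ, Continuous φ → (∀ w, 12 / 100 * t ≤ ‖w‖ → φ w = 0) →
      dg F (ball x (t / 2)) (fun y => ad ι (F y - x)) φ = d * ∫ w, φ w := by
  have ht := H.tpos
  obtain ⟨d, hd⟩ := hPR m n F H.smooth.continuous (ball x (t / 2)) isOpen_ball
    (fun y hy => H.uu hδ2 hy) (δ * t) (by positivity) (fun y => ad ι (F y - x))
    (contDiff_ad H.smooth ι x) (24 / 100 * t) 0 (by positivity) (by
      rintro y hy1 hy2 ⟨w, hw, hdw⟩
      rw [sub_zero]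
      have h1 : t / 2 ≤ dist (F y) x := not_lt.mp hy2
      have h2 : dist (F y) x ≤ t / 2 + δ * t := by
        calc _ ≤ dist (F y) w + dist w x := dist_triangle _ _ _
          _ ≤ _ := by
            have : dist w x < t / 2 := hw
            linarith
      have := H.norm_ge hδ hδ2 hy1.le h1 h2
      linarith)
  refine ⟨d, fun φ hφ hφ0 => hd φ hφ (fun w hw => hφ0 w ?_)⟩
  rw [sub_zero] at hw
  linarith

theorem Pair.prop_ne (hPR : S_PR) (H : Pair M h F z0 t0 δ x t ι) (hδ : 0 < δ)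
    (hδ2 : δ ≤ 1 / 10000) (hN : NZ F ι x t) :
    ∃ d : ℝ, d ≠ 0 ∧ ∀ φ : E m → ℝ, Continuous φ → (∀ w, 12 / 100 * t ≤ ‖w‖ → φ w = 0) →
      dg F (ball x (t / 2)) (fun y => ad ι (F y - x)) φ = d * ∫ w, φ w := by
  obtain ⟨d, hd⟩ := H.prop hPR hδ hδ2
  have ht := H.tpos
  refine ⟨d, ?_, hd⟩
  rintro rfl
  obtain ⟨φ, h1, h2, h3⟩ := hN
  apply h3
  rw [hd φ h1 (fun w hw => h2 w (by linarith)), zero_mul]

theorem integral_pos_of {φ : E m → ℝ} (hφ : Continuous φ) (h0 : ∀ w, 0 ≤ φ w) {a : E m} {r : ℝ}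
    (hr : ∀ w, r ≤ ‖w - a‖ → φ w = 0) (ha : 0 < φ a) : 0 < ∫ w, φ w := by
  have hcs : HasCompactSupport φ := by
    apply HasCompactSupport.of_support_subset_isCompact (isCompact_closedBall a r)
    intro w hw
    rw [mem_closedBall, dist_eq_norm]
    by_contra h
    push Not at h
    exact hw (hr w h.le)
  exact (hφ.integral_pos_of_hasCompactSupport_nonneg_nonzero hcs h0 ha.ne')

theorem den (hPR : S_PR) : S_DEN := by
  intro m n M h F z0 t0 δ x t ι hδ hδ2 H hN p hp
  obtain ⟨d, hd0, hd⟩ := H.prop_ne hPR hδ hδ2 hN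
  have ht := H.tpos
  set φ : E m → ℝ := fun w => tf (δ * t) (w - p) with hφ
  have hφc : Continuous φ := (continuous_tf _).comp (continuous_id.sub continuous_const)
  have h1 := hd φ hφc (fun w hw => by
    apply tf_zero
    have h2 := norm_sub_norm_le w p
    nlinarith)
  have h2 : 0 < ∫ w, φ w := integral_pos_of hφc (fun w => tf_nonneg _ _) (a := p) (r := δ * t)
    (fun w hw => tf_zero hw) (by
      show 0 < tf (δ * t) (p - p)
      rw [sub_self]
      apply tf_pos
      rw [norm_zero]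
      positivity)
  have h3 : dg F (ball x (t / 2)) (fun y => ad ι (F y - x)) φ ≠ 0 := by
    rw [h1]; exact mul_ne_zero hd0 h2.ne'
  have h4 : ∃ y ∈ UU F (ball x (t / 2)), φ (ad ι (F y - x)) ≠ 0 := by
    by_contra hno
    push Not at hno
    apply h3
    unfold dg
    rw [setIntegral_congr_fun (g := fun _ => (0 : ℝ))
      (isOpen_UU H.smooth.continuous isOpen_ball).measurableSet
      (fun y hy => by simp only; rw [hno y hy, zero_mul])]
    simp
  obtain ⟨y, hy, hy2⟩ := h4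
  have h5 : ‖ad ι (F y - x) - p‖ < δ * t := norm_lt_of_tf hy2
  have h6 : dist (F y) x < t / 2 := hy.2
  have h7 := H.slab hδ hδ2 hy.1.le (by linarith)
  have h8 := H.near y hy.1.le
  refine ⟨h y, H.cht.maps y hy.1.le, ?_⟩
  have h9 : h y - x - ι p = -(F y - h y) + off ι (F y - x) + ι (ad ι (F y - x) - p) := by
    have h10 : ι (ad ι (F y - x) - p) = ι (ad ι (F y - x)) - ι p := map_sub ι _ _
    rw [off_apply, h10]; abel
  rw [h9]
  calc _ ≤ ‖-(F y - h y)‖ + ‖off ι (F y - x)‖ + ‖ι (ad ι (F y - x) - p)‖ := norm_add₃_le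
    _ ≤ δ * t + 2 * δ * t + δ * t := by
      rw [norm_neg, LinearIsometry.norm_map]
      gcongr
    _ = _ := by ring

/-- excision -/
theorem excis {x' : E n} {t' : ℝ} {ι' : Fr m n} (H : Pair M h F z0 t0 δ x t ι)
    (H' : Pair M h F z0 t0 δ x' t' ι') (hδ : 0 < δ) (hδ2 : δ ≤ 1 / 10000)
    (hd : dist x x' ≤ t / 40) (ht1 : t / 4 ≤ t') (ht2 : t' ≤ t) (φ : E m → ℝ)
    (hφ : ∀ w, t / 200 ≤ ‖w - ad ι (x' - x)‖ → φ w = 0) :
    dg F (ball x (t / 2)) (fun y => ad ι (F y - x)) φ =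
      dg F (ball x' (t' / 2)) (fun y => ad ι (F y - x)) φ := by
  have ht := H.tpos
  unfold dg
  rw [← integral_indicator (isOpen_UU H.smooth.continuous isOpen_ball).measurableSet,
    ← integral_indicator (isOpen_UU H.smooth.continuous isOpen_ball).measurableSet]
  congr 1
  ext y
  by_cases h0 : φ (ad ι (F y - x)) = 0
  · simp only [indicator, h0, zero_mul, ite_self]
  · have h1 : ‖ad ι (F y - x) - ad ι (x' - x)‖ < t / 200 := by
      by_contra h2
      push Not at h2
      exact h0 (hφ _ h2)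
    rw [← map_sub, show F y - x - (x' - x) = F y - x' by abel] at h1
    by_cases hy : ‖y‖ < 1
    · have hoff' : ‖off ι (x' - x)‖ ≤ δ * t :=
        H.flat x' H'.mem (by rw [dist_comm]; linarith)
      have key : dist (F y) x ≤ 3 / 4 * t → dist (F y) x' < t / 100 := by
        intro h2
        have h3 := H.slab hδ hδ2 hy.le h2
        have h4 : off ι (F y - x') = off ι (F y - x) - off ι (x' - x) := by
          rw [← map_sub]; congr 1; abel
        have h5 : ‖off ι (F y - x')‖ ≤ 3 * δ * t := by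
          rw [h4]
          calc _ ≤ _ := norm_sub_le _ _
            _ ≤ 2 * δ * t + δ * t := add_le_add h3 hoff'
            _ = _ := by ring
        have h6 := norm_le_add ι (F y - x')
        rw [← dist_eq_norm] at h6
        nlinarith
      have hiff : F y ∈ ball x (t / 2) ↔ F y ∈ ball x' (t' / 2) := by
        rw [mem_ball, mem_ball]
        constructor
        · intro h2
          have := key (by linarith)
          linarith
        · intro h2
          have h3 : dist (F y) x ≤ 3 / 4 * t := by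
            calc _ ≤ dist (F y) x' + dist x' x := dist_triangle _ _ _
              _ ≤ _ := by rw [dist_comm x' x]; linarith
          have h4 := key h3
          calc _ ≤ dist (F y) x' + dist x' x := dist_triangle _ _ _
            _ < _ := by rw [dist_comm x' x]; linarith
      by_cases h2 : F y ∈ ball x (t / 2)
      · rw [indicator_of_mem (show y ∈ UU F (ball x (t / 2)) from ⟨hy, h2⟩),
          indicator_of_mem (show y ∈ UU F (ball x' (t' / 2)) from ⟨hy, hiff.mp h2⟩)]
      · rw [indicator_of_notMem (show y ∉ UU F (ball x (t / 2)) from fun h3 => h2 h3.2),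
          indicator_of_notMem (show y ∉ UU F (ball x' (t' / 2)) from
            fun h3 => h2 (hiff.mpr h3.2))]
    · rw [indicator_of_notMem (show y ∉ UU F (ball x (t / 2)) from fun h3 => hy h3.1),
        indicator_of_notMem (show y ∉ UU F (ball x' (t' / 2)) from fun h3 => hy h3.1)]

/-- the change of frames -/
def TT (ι2 ι1 : Fr m n) : E m →L[ℝ] E m := ad ι2 ∘L ι1.toContinuousLinearMap

theorem TT_apply (ι2 ι1 : Fr m n) (p : E m) : TT ι2 ι1 p = ad ι2 (ι1 p) := rfl

theorem TT_bound {ι2 ι1 : Fr m n} {a : ℝ} (_ha0 : 0 ≤ a) (ha : a ≤ 1 / 2)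
    (h : ∀ p : E m, ‖off ι2 (ι1 p)‖ ≤ a * ‖p‖) (p : E m) : ‖p‖ / 2 ≤ ‖TT ι2 ι1 p‖ := by
  have h1 := pyth ι2 (ι1 p)
  rw [LinearIsometry.norm_map] at h1
  have h2 := h p
  have h3 := norm_nonneg (off ι2 (ι1 p))
  have h4 := norm_nonneg p
  rw [TT_apply]
  have h5 : ‖off ι2 (ι1 p)‖ ≤ ‖p‖ / 2 := by nlinarith
  apply le_of_sq_le_sq _ (norm_nonneg _)
  nlinarith

theorem TT_det {ι2 ι1 : Fr m n} (h : ∀ p : E m, ‖p‖ / 2 ≤ ‖TT ι2 ι1 p‖) :
    (TT ι2 ι1).det ≠ 0 := by
  have hinj : Function.Injective (TT ι2 ι1 : E m →ₗ[ℝ] E m) := by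
    rw [injective_iff_map_eq_zero]
    intro p hp
    have h1 := h p
    have h2 : TT ι2 ι1 p = 0 := hp
    rw [h2, norm_zero] at h1
    have h3 := norm_nonneg p
    exact norm_eq_zero.mp (by linarith)
  have hu : IsUnit (TT ι2 ι1 : E m →ₗ[ℝ] E m) :=
    (LinearMap.isUnit_iff_ker_eq_bot _).mpr (LinearMap.ker_eq_bot.mpr hinj)
  have := LinearMap.isUnit_det _ hu
  exact this.ne_zero

/-- transfer between two frames -/
theorem trans (hHM : S_HM) {x' : E n} {t' : ℝ} {ι' : Fr m n}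
    (H' : Pair M h F z0 t0 δ x' t' ι') (hδ : 0 < δ) (hδ2 : δ ≤ 1 / 10000) (ι1 ι2 : Fr m n)
    (hs1 : ∀ y : E m, ‖y‖ < 1 → dist (F y) x' ≤ 11 / 20 * t' → ‖off ι1 (F y - x')‖ ≤ 12 * δ * t')
    (hs2 : ∀ y : E m, ‖y‖ < 1 → dist (F y) x' ≤ 11 / 20 * t' → ‖off ι2 (F y - x')‖ ≤ 12 * δ * t')
    (φ : E m → ℝ) (hφ : Continuous φ) (hφ0 : ∀ w, t' / 5 ≤ ‖w‖ → φ w = 0) :
    dg F (ball x' (t' / 2)) (fun y => ad ι2 (F y - x')) φ = (TT ι2 ι1).det *
      dg F (ball x' (t' / 2)) (fun y => ad ι1 (F y - x')) (fun w => φ (TT ι2 ι1 w)) := by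
  have ht := H'.tpos
  have hc1 := contDiff_ad H'.smooth ι1 x'
  have hc2 := contDiff_ad H'.smooth ι2 x'
  have hT : ContDiff ℝ 1 (TT ι2 ι1 : E m → E m) := (TT ι2 ι1).contDiff
  have h1 := hHM m n F H'.smooth.continuous (ball x' (t' / 2)) isOpen_ball
    (fun y hy => H'.uu hδ2 hy) (δ * t') (by positivity)
    (fun y => TT ι2 ι1 (ad ι1 (F y - x'))) (fun y => ad ι2 (F y - x')) (hT.comp hc1) hc2
    (t' / 5) 0 (by positivity) (by
      rintro y hy1 hy2 ⟨w, hw, hdw⟩ s hs
      have h1 : t' / 2 ≤ dist (F y) x' := not_lt.mp hy2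
      have h2 : dist (F y) x' ≤ 11 / 20 * t' := by
        calc _ ≤ dist (F y) w + dist w x' := dist_triangle _ _ _
          _ ≤ _ := by
            have : dist w x' < t' / 2 := hw
            nlinarith
      have h3 := hs1 y hy1 h2
      have h4 := hs2 y hy1 h2
      have h5 : ad ι2 (F y - x') - TT ι2 ι1 (ad ι1 (F y - x')) = ad ι2 (off ι1 (F y - x')) := by
        rw [TT_apply, ← map_sub, ← off_apply]
      have h6 : ‖ad ι2 (F y - x') - TT ι2 ι1 (ad ι1 (F y - x'))‖ ≤ 12 * δ * t' := by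
        rw [h5]; exact (norm_ad_le _ _).trans h3
      have h7 : TT ι2 ι1 (ad ι1 (F y - x')) + s • (ad ι2 (F y - x') -
          TT ι2 ι1 (ad ι1 (F y - x'))) - 0 = ad ι2 (F y - x') - (1 - s) • (ad ι2 (F y - x') -
          TT ι2 ι1 (ad ι1 (F y - x'))) := by
        rw [sub_smul, one_smul]; abel
      rw [h7]
      have h8 : ‖(1 - s) • (ad ι2 (F y - x') - TT ι2 ι1 (ad ι1 (F y - x')))‖ ≤ 12 * δ * t' := by
        rw [norm_smul, Real.norm_of_nonneg (by linarith [hs.2])]
        have := norm_nonneg (ad ι2 (F y - x') - TT ι2 ι1 (ad ι1 (F y - x')))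
        nlinarith [hs.1, hs.2]
      have h9 := norm_sub_norm_le (ad ι2 (F y - x')) ((1 - s) • (ad ι2 (F y - x') -
          TT ι2 ι1 (ad ι1 (F y - x'))))
      have h10 := norm_le_add ι2 (F y - x')
      rw [← dist_eq_norm] at h10
      nlinarith) φ hφ (by
      intro w hw
      rw [sub_zero] at hw
      exact hφ0 w hw)
  rw [h1]
  unfold dg
  rw [← integral_const_mul]
  congr 1
  ext y
  rw [det_comp hc1 hT]
  have h2 : fderiv ℝ (TT ι2 ι1 : E m → E m) (ad ι1 (F y - x')) = TT ι2 ι1 :=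
    (TT ι2 ι1).fderiv
  rw [h2]
  ring

/-- shift of the base point -/
theorem dg_shift (F : E m → E n) (O : Set (E n)) (ι : Fr m n) (x x' : E n) (φ : E m → ℝ) :
    dg F O (fun y => ad ι (F y - x')) φ =
      dg F O (fun y => ad ι (F y - x)) (fun w => φ (w - ad ι (x' - x))) := by
  have h1 : ∀ y, ad ι (F y - x') = ad ι (F y - x) - ad ι (x' - x) := by
    intro y
    rw [← map_sub]; congr 1; abel
  unfold dg
  congr 1
  ext y
  have h2 : fderiv ℝ (fun y => ad ι (F y - x')) y = fderiv ℝ (fun y => ad ι (F y - x)) y := by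
    have : (fun y => ad ι (F y - x')) = fun y => ad ι (F y - x) - ad ι (x' - x) := funext h1
    rw [this, fderiv_sub_const]
  rw [h2]
  show φ (ad ι (F y - x')) * _ = φ (ad ι (F y - x) - ad ι (x' - x)) * _
  rw [h1]

theorem down (hHM : S_HM) (hPR : S_PR) (hAng : S_ANG) : S_DOWN := by
  intro m n M h F z0 t0 δ x x' t t' ι ι' hδ hδ2 H H' hd ht1 ht2 hN
  have ht := H.tpos
  have ht' := H'.tpos
  obtain ⟨d, hd0, hdφ⟩ := H.prop_ne hPR hδ hδ2 hN
  have hD := den hPR m n M h F z0 t0 δ x t ι hδ hδ2 H hN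
  have hxx' : dist x x' ≤ t' := by linarith
  have hang : ∀ p : E m, ‖off ι' (ι p)‖ ≤ 60 * δ * ‖p‖ := by
    intro p
    have := hAng m n M x t (4 * δ) δ (2 * δ) ι' ι ht (by positivity) (by linarith) hD H.flat (by
      intro z hz hzx
      have h1 : ‖off ι' (z - x')‖ ≤ δ * t' := H'.flat z hz (by
        calc dist z x' ≤ dist z x + dist x x' := dist_triangle _ _ _
          _ ≤ t' := by linarith)
      have h2 : ‖off ι' (x - x')‖ ≤ δ * t' := H'.flat x H.mem hxx'
      have h3 : off ι' (z - x) = off ι' (z - x') - off ι' (x - x') := by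
        rw [← map_sub]; congr 1; abel
      rw [h3]
      calc _ ≤ _ := norm_sub_le _ _
        _ ≤ δ * t' + δ * t' := add_le_add h1 h2
        _ ≤ _ := by nlinarith) p
    calc _ ≤ _ := this
      _ = _ := by ring
  have hTb := TT_bound (ι2 := ι') (ι1 := ι) (by positivity) (by linarith) hang
  have hTd := TT_det hTb
  set φ : E m → ℝ := tf (t' / 400) with hφ
  have hφc : Continuous φ := continuous_tf _
  refine ⟨φ, hφc, fun p hp => tf_zero (by linarith), ?_⟩
  rw [trans hHM H' hδ hδ2 ι ι' ?_ ?_ φ hφc (fun w hw => tf_zero (by linarith)), dg_shift F _ ι x x']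
  · have hg : ∀ w, t / 200 ≤ ‖w - ad ι (x' - x)‖ → φ (TT ι' ι (w - ad ι (x' - x))) = 0 := by
      intro w hw
      apply tf_zero
      have := hTb (w - ad ι (x' - x))
      linarith
    have hp0 : ‖ad ι (x' - x)‖ ≤ t / 40 := by
      refine (norm_ad_le _ _).trans ?_
      rw [← dist_eq_norm, dist_comm]; exact hd
    have hcg : Continuous fun w => φ (TT ι' ι (w - ad ι (x' - x))) :=
      hφc.comp ((TT ι' ι).continuous.comp (continuous_id.sub continuous_const))
    rw [← excis H H' hδ hδ2 hd ht1 ht2 (fun w => φ (TT ι' ι (w - ad ι (x' - x)))) hg,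
      hdφ _ hcg (fun w hw => by
        apply hg
        have := norm_sub_norm_le w (ad ι (x' - x))
        linarith)]
    apply mul_ne_zero hTd
    apply mul_ne_zero hd0
    refine (integral_pos_of hcg (fun w => tf_nonneg _ _) (a := ad ι (x' - x)) hg ?_).ne'
    simp only [sub_self, map_zero]
    apply tf_pos
    rw [norm_zero]
    positivity
  · intro y hy1 hy2
    have h1 : dist (F y) x ≤ 3 / 4 * t := by
      calc _ ≤ dist (F y) x' + dist x' x := dist_triangle _ _ _
        _ ≤ _ := by rw [dist_comm x' x]; linarith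
    have h2 := H.slab hδ hδ2 hy1.le h1
    have h3 : ‖off ι (x' - x)‖ ≤ δ * t := H.flat x' H'.mem (by rw [dist_comm]; linarith)
    have h4 : off ι (F y - x') = off ι (F y - x) - off ι (x' - x) := by
      rw [← map_sub]; congr 1; abel
    rw [h4]
    calc _ ≤ _ := norm_sub_le _ _
      _ ≤ 2 * δ * t + δ * t := add_le_add h2 h3
      _ ≤ _ := by nlinarith
  · intro y hy1 hy2
    refine (H'.slab hδ hδ2 hy1.le (by linarith)).trans ?_
    nlinarith

theorem up (hHM : S_HM) (hPR : S_PR) (hAng : S_ANG) : S_UP := by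
  intro m n M h F z0 t0 δ x x' t t' ι ι' hδ hδ2 H H' hd ht1 ht2 hN
  have ht := H.tpos
  have ht' := H'.tpos
  obtain ⟨d, hd0, hdφ⟩ := H'.prop_ne hPR hδ hδ2 hN
  have hD := den hPR m n M h F z0 t0 δ x' t' ι' hδ hδ2 H' hN
  have hxx' : ‖off ι (x' - x)‖ ≤ δ * t := H.flat x' H'.mem (by rw [dist_comm]; linarith)
  have hang : ∀ p : E m, ‖off ι (ι' p)‖ ≤ 180 * δ * ‖p‖ := by
    intro p
    have := hAng m n M x' t' (4 * δ) δ (8 * δ) ι ι' ht' (by positivity) (by linarith) hD
      H'.flat (by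
      intro z hz hzx
      have h1 : ‖off ι (z - x)‖ ≤ δ * t := H.flat z hz (by
        calc dist z x ≤ dist z x' + dist x' x := dist_triangle _ _ _
          _ ≤ t := by rw [dist_comm x' x]; linarith)
      have h3 : off ι (z - x') = off ι (z - x) - off ι (x' - x) := by
        rw [← map_sub]; congr 1; abel
      rw [h3]
      calc _ ≤ _ := norm_sub_le _ _
        _ ≤ δ * t + δ * t := add_le_add h1 hxx'
        _ ≤ _ := by nlinarith) p
    calc _ ≤ _ := this
      _ = _ := by ring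
  have hTb := TT_bound (ι2 := ι) (ι1 := ι') (by positivity) (by linarith) hang
  have hTd := TT_det hTb
  set φ : E m → ℝ := tf (t' / 400) with hφ
  have hφc : Continuous φ := continuous_tf _
  have hp0 : ‖ad ι (x' - x)‖ ≤ t / 40 := by
    refine (norm_ad_le _ _).trans ?_
    rw [← dist_eq_norm, dist_comm]; exact hd
  refine ⟨fun w => φ (w - ad ι (x' - x)), hφc.comp (continuous_id.sub continuous_const),
    fun p hp => tf_zero ?_, ?_⟩
  · have := norm_sub_norm_le p (ad ι (x' - x))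
    linarith
  rw [excis H H' hδ hδ2 hd ht1 ht2 (fun w => φ (w - ad ι (x' - x)))
    (fun w hw => tf_zero (by linarith)), ← dg_shift F _ ι x x',
    trans hHM H' hδ hδ2 ι' ι ?_ ?_ φ hφc (fun w hw => tf_zero (by linarith))]
  · have hg : ∀ w : E m, 12 / 100 * t' ≤ ‖w‖ → φ (TT ι ι' w) = 0 := by
      intro w hw
      apply tf_zero
      have := hTb w
      linarith
    have hcg : Continuous fun w => φ (TT ι ι' w) := hφc.comp (TT ι ι').continuous
    rw [hdφ _ hcg hg]
    apply mul_ne_zero hTd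
    apply mul_ne_zero hd0
    refine (integral_pos_of hcg (fun w => tf_nonneg _ _) (a := 0) (r := 12 / 100 * t')
      (fun w hw => hg w (by rwa [sub_zero] at hw)) ?_).ne'
    simp only [map_zero]
    apply tf_pos
    rw [norm_zero]
    positivity
  · intro y hy1 hy2
    refine (H'.slab hδ hδ2 hy1.le (by linarith)).trans ?_
    nlinarith
  · intro y hy1 hy2
    have h1 : dist (F y) x ≤ 3 / 4 * t := by
      calc _ ≤ dist (F y) x' + dist x' x := dist_triangle _ _ _
        _ ≤ _ := by rw [dist_comm x' x]; linarith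
    have h2 := H.slab hδ hδ2 hy1.le h1
    have h4 : off ι (F y - x') = off ι (F y - x) - off ι (x' - x) := by
      rw [← map_sub]; congr 1; abel
    rw [h4]
    calc _ ≤ _ := norm_sub_le _ _
      _ ≤ 2 * δ * t + δ * t := add_le_add h2 hxx'
      _ ≤ _ := by nlinarith

end

end Pool.Agent.Q77.BT
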