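import Pool.Agent.Q77.BT.Core2

/-!
# Project BT: the local-to-global step
-/

set_option autoImplicit false

open MeasureTheory Set Metric Filter Topology
open scoped NNReal RealInnerProductSpace

noncomputable section

namespace Pool.Agent.Q77.BT

variable {m n : ℕ}

/-- index of the cube of side `σ` -/
def idx (σ : ℝ) (w : E n) (i : Fin n) : ℤ := ⌊w i / σ⌋

theorem abs_apply_le (w : E n) (i : Fin n) : |w i| ≤ ‖w‖ := by
  have := PiLp.norm_apply_le w i
  simpa using this

theorem norm_le_of_coord {w : E n} {c : ℝ} (hc : 0 ≤ c) (h : ∀ i, |w i| ≤ c) :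
    ‖w‖ ≤ c * (n + 1) := by
  rw [EuclideanSpace.norm_eq]
  apply Real.sqrt_le_iff.mpr
  refine ⟨by positivity, ?_⟩
  calc ∑ i, ‖w i‖ ^ 2 ≤ ∑ _i : Fin n, c ^ 2 := by
        apply Finset.sum_le_sum
        intro i _
        rw [Real.norm_eq_abs]
        exact pow_le_pow_left₀ (abs_nonneg _) (h i) 2
    _ = n * c ^ 2 := by simp
    _ ≤ (c * (n + 1)) ^ 2 := by
        have hn : (0 : ℝ) ≤ n := Nat.cast_nonneg n
        nlinarith [sq_nonneg c, mul_nonneg hn (sq_nonneg c), mul_nonneg (mul_nonneg hn hn)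
          (sq_nonneg c)]

theorem dist_le_of_idx {σ : ℝ} (hσ : 0 < σ) {w w' : E n} (h : idx σ w = idx σ w') :
    dist w w' ≤ σ * (n + 1) := by
  rw [dist_eq_norm]
  apply norm_le_of_coord hσ.le
  intro i
  have h1 : ⌊w i / σ⌋ = ⌊w' i / σ⌋ := congrFun h i
  have h2 := Int.abs_sub_lt_one_of_floor_eq_floor h1
  rw [← sub_div, abs_div, abs_of_pos hσ, div_lt_one hσ] at h2
  exact h2.le

theorem le_dist_of_idx {σ : ℝ} (hσ : 0 < σ) {q : ℕ} {w w' : E n} (h : idx σ w ≠ idx σ w')
    (hq : ∀ i, (q : ℤ) ∣ idx σ w i - idx σ w' i) : ((q : ℝ) - 1) * σ ≤ dist w w' := by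
  obtain ⟨i, hi⟩ := Function.ne_iff.mp h
  have h1 : (q : ℤ) ≤ |idx σ w i - idx σ w' i| := by
    apply Int.le_of_dvd (abs_pos.mpr (sub_ne_zero.mpr hi))
    rw [dvd_abs]
    exact hq i
  have h2 : (q : ℝ) ≤ |(idx σ w i : ℝ) - idx σ w' i| := by
    have : ((q : ℤ) : ℝ) ≤ ((|idx σ w i - idx σ w' i| : ℤ) : ℝ) := by exact_mod_cast h1
    simpa using this
  have h3 : |(idx σ w i : ℝ) - idx σ w' i| ≤ |w i / σ - w' i / σ| + 1 := by
    have ha := Int.floor_le (w i / σ)
    have hb := Int.lt_floor_add_one (w i / σ)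
    have hc := Int.floor_le (w' i / σ)
    have hd := Int.lt_floor_add_one (w' i / σ)
    have h5 := le_abs_self (w i / σ - w' i / σ)
    have h6 := neg_abs_le (w i / σ - w' i / σ)
    unfold idx
    rw [abs_le]
    constructor <;> linarith
  have h4 : |w i / σ - w' i / σ| = |w i - w' i| / σ := by
    rw [← sub_div, abs_div, abs_of_pos hσ]
  have h5 : |w i - w' i| ≤ dist w w' := by
    rw [dist_eq_norm]
    exact abs_apply_le (w - w') i
  have h6 : (q : ℝ) - 1 ≤ |w i - w' i| / σ := by rw [h4] at h3; linarith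
  rw [le_div_iff₀ hσ] at h6
  linarith

theorem finite_idx {σ : ℝ} (hσ : 0 < σ) (S : Set (E n)) (hS : Bornology.IsBounded S) :
    (idx σ '' S).Finite := by
  obtain ⟨C, hC⟩ := hS.exists_norm_le
  apply Set.Finite.subset (Set.finite_Icc (fun _ : Fin n => ⌊-C / σ⌋) (fun _ => ⌊C / σ⌋))
  rintro _ ⟨w, hw, rfl⟩
  constructor
  · intro i
    apply Int.floor_le_floor
    apply div_le_div_of_nonneg_right _ hσ.le
    have := neg_abs_le (w i)
    linarith [abs_apply_le w i, hC w hw]
  · intro i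
    apply Int.floor_le_floor
    apply div_le_div_of_nonneg_right _ hσ.le
    have := le_abs_self (w i)
    linarith [abs_apply_le w i, hC w hw]

theorem continuousOn_inv {h : E m → E n} (hc : ContinuousOn h (closedBall 0 1))
    (hi : InjOn h (closedBall 0 1)) :
    ContinuousOn (Function.invFunOn h (closedBall 0 1)) (h '' closedBall 0 1) := by
  rw [continuousOn_iff_isClosed]
  intro t ht
  refine ⟨h '' (t ∩ closedBall 0 1), ?_, ?_⟩
  · have : IsCompact (t ∩ closedBall (0 : E m) 1) := (isCompact_closedBall 0 1).inter_left ht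
    exact (this.image_of_continuousOn (hc.mono inter_subset_right)).isClosed
  · ext w
    constructor
    · rintro ⟨h1, y, hy, rfl⟩
      have h2 : Function.invFunOn h (closedBall 0 1) (h y) = y := hi.leftInvOn_invFunOn hy
      rw [mem_preimage, h2] at h1
      exact ⟨⟨y, ⟨h1, hy⟩, rfl⟩, ⟨y, hy, rfl⟩⟩
    · rintro ⟨⟨y, ⟨h1, hy⟩, rfl⟩, -⟩
      have h2 : Function.invFunOn h (closedBall 0 1) (h y) = y := hi.leftInvOn_invFunOn hy
      exact ⟨by rw [mem_preimage, h2]; exact h1, ⟨y, hy, rfl⟩⟩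

theorem lg (hHM : S_HM) (hMS : S_MS) (hW : S_WALL) (hA : S_APR) : S_LG := by
  intro m n hm
  set q : ℕ := 32 * (n + 1) + 1 with hq
  haveI : NeZero q := ⟨by omega⟩
  obtain ⟨κ, δ1, Λ, hκ, hκ1, hδ1, hwall⟩ := hW m n (Fintype.card (Fin n → ZMod q)) hm
  set δ0 : ℝ := min (1 / 1000) (min (δ1 / 22) (κ / (84 * (Λ + 1)))) with hδ0
  have hΛ0 : (0 : ℝ) ≤ Λ := Λ.2
  refine ⟨δ0, by positivity, ?_⟩
  intro M h z0 t0 hcht δ R hδ hδle hR hLA t1 ht1
  have hd1 : δ ≤ 1 / 1000 := hδle.trans (min_le_left _ _)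
  have hd2 : 22 * δ ≤ δ1 := by
    have : δ ≤ δ1 / 22 := hδle.trans ((min_le_right _ _).trans (min_le_left _ _))
    linarith
  have hd3 : (Λ : ℝ) * (21 * δ) ≤ κ / 4 := by
    have h1 : δ ≤ κ / (84 * (Λ + 1)) := hδle.trans ((min_le_right _ _).trans (min_le_right _ _))
    rw [le_div_iff₀ (by positivity)] at h1
    nlinarith
  have ht0 := hcht.pos
  set τ : ℝ := min t1 (t0 / 2) with hτ
  have hτpos : 0 < τ := lt_min ht1 (by linarith)
  have hτ1 : τ ≤ t1 := min_le_left _ _
  have hτ2 : τ ≤ t0 / 2 := min_le_right _ _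
  -- the radius `s0`
  obtain ⟨s0, hs0, hs0', hsmall⟩ : ∃ s0 : ℝ, 0 < s0 ∧ s0 ≤ 1 / 2 ∧
      ∀ y : E m, ‖y‖ ≤ s0 → dist (h y) z0 < τ / 2 := by
    have hc : ContinuousAt h 0 := hcht.cont.continuousAt (closedBall_mem_nhds _ one_pos)
    obtain ⟨s, hs, hs2⟩ := Metric.continuousAt_iff.mp hc (τ / 2) (by linarith)
    refine ⟨min (s / 2) (1 / 2), by positivity, min_le_right _ _, fun y hy => ?_⟩
    have := hs2 (x := y) (by
      rw [dist_zero_right]
      have := hy.trans (min_le_left _ _)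
      linarith)
    rwa [hcht.zero] at this
  set η : ℝ := s0 / 4 with hη
  have hηpos : 0 < η := by positivity
  -- the map `G`
  have hinv : ∀ y : E m, ‖y‖ ≤ 1 → Function.invFunOn h (closedBall 0 1) (h y) = y :=
    fun y hy => hcht.inj.leftInvOn_invFunOn (by rw [mem_closedBall_zero_iff]; exact hy)
  obtain ⟨G, L, hG1, hG2, hG3⟩ := hA n m (h '' closedBall 0 1)
    ((isCompact_closedBall 0 1).image_of_continuousOn hcht.cont)
    (Function.invFunOn h (closedBall 0 1)) (continuousOn_inv hcht.cont hcht.inj) η hηpos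
  have hGh : ∀ y : E m, ‖y‖ ≤ 1 → ‖G (h y) - y‖ ≤ η := by
    intro y hy
    have := hG3 (h y) ⟨y, by rw [mem_closedBall_zero_iff]; exact hy, rfl⟩
    rwa [hinv y hy] at this
  have hL0 : (0 : ℝ) ≤ L := L.2
  refine ⟨min (η / (L + 1)) (min (t0 / 20) (R / 20)), by positivity, ?_⟩
  intro ε hε hεlt F hF hFh
  have he1 : ε < η / (L + 1) := hεlt.trans_le (min_le_left _ _)
  have he2 : ε < t0 / 20 := hεlt.trans_le ((min_le_right _ _).trans (min_le_left _ _))
  have he3 : ε < R / 20 := hεlt.trans_le ((min_le_right _ _).trans (min_le_right _ _))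
  have hLε : L * ε ≤ η := by
    rw [lt_div_iff₀ (by positivity)] at he1
    nlinarith
  -- the cubes
  set σ : ℝ := ε / (4 * (n + 1)) with hσ
  have hn0 : (0 : ℝ) ≤ n := Nat.cast_nonneg n
  have hσpos : 0 < σ := by positivity
  set A : Set (E n) := M ∩ closedBall z0 (τ / 2) with hAdef
  have hfin : (idx σ '' A).Finite :=
    finite_idx hσpos A (isBounded_closedBall.subset inter_subset_right)
  set S : Finset (Fin n → ℤ) := hfin.toFinset with hS
  have hmemS : ∀ k ∈ S, ∃ w, w ∈ A ∧ idx σ w = k := by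
    intro k hk
    obtain ⟨w, hw, hw2⟩ := hfin.mem_toFinset.mp hk
    exact ⟨w, hw, hw2⟩
  let e : Fin S.card ≃ S := S.equivFin.symm
  choose! pt hpt1 hpt2 using hmemS
  set x : Fin S.card → E n := fun k => pt (e k) with hx
  have hxA : ∀ k, x k ∈ A := fun k => hpt1 _ (e k).2
  have hxidx : ∀ k, idx σ (x k) = (e k : Fin n → ℤ) := fun k => hpt2 _ (e k).2
  have hflat : ∀ k, ∃ ι : Fr m n, Fl M (x k) (20 * ε) δ ι :=
    fun k => hLA (x k) (hxA k).1 (20 * ε) (by positivity) (by linarith)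
  choose ι hι using hflat
  -- colours
  let colf : (Fin n → ZMod q) ≃ Fin (Fintype.card (Fin n → ZMod q)) := Fintype.equivFin _
  set col : Fin S.card → Fin (Fintype.card (Fin n → ZMod q)) :=
    fun k => colf (fun i => ((idx σ (x k) i : ℤ) : ZMod q)) with hcol
  have hsep : ∀ i j, i ≠ j → col i = col j → 8 ≤ dist (ε⁻¹ • x i) (ε⁻¹ • x j) := by
    intro i j hij hc
    have h1 : idx σ (x i) ≠ idx σ (x j) := by
      rw [hxidx, hxidx]
      intro h2
      exact hij (e.injective (Subtype.ext h2))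
    have h2 : ∀ l, (q : ℤ) ∣ idx σ (x i) l - idx σ (x j) l := by
      intro l
      have h3 := congrFun (colf.injective hc) l
      have h4 : ((idx σ (x j) l : ℤ) : ZMod q) = ((idx σ (x i) l : ℤ) : ZMod q) := h3.symm
      exact (ZMod.intCast_eq_intCast_iff_dvd_sub _ _ _).mp h4
    have h3 := le_dist_of_idx hσpos h1 h2
    rw [dist_smul₀, Real.norm_of_nonneg (by positivity)]
    have h4 : ((q : ℝ) - 1) * σ = 8 * ε := by
      rw [hq, hσ]
      push_cast
      field_simp
      ring
    rw [h4] at h3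
    rw [inv_mul_eq_div, le_div_iff₀ hε]
    exact h3
  -- the normalised map
  set Gn : E n → E m := fun z => η⁻¹ • G (ε • z) with hGn
  have hGn1 : ContDiff ℝ 1 Gn := (hG1.comp (contDiff_id.const_smul ε)).const_smul η⁻¹
  have hGn2 : LipschitzWith 1 Gn := by
    apply LipschitzWith.of_dist_le_mul
    intro z z'
    rw [NNReal.coe_one, one_mul]
    show dist (η⁻¹ • G (ε • z)) (η⁻¹ • G (ε • z')) ≤ dist z z'
    rw [dist_smul₀, Real.norm_of_nonneg (by positivity)]
    have h1 := hG2.dist_le_mul (ε • z) (ε • z')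
    rw [dist_smul₀, Real.norm_of_nonneg hε.le] at h1
    rw [inv_mul_eq_div, div_le_iff₀ hηpos]
    have := dist_nonneg (x := z) (y := z')
    nlinarith
  obtain ⟨G', hG'1, hG'2, hG'3, hG'4⟩ := hwall (Fin S.card) col (fun k => ε⁻¹ • x k) ι hsep
    Gn hGn1 hGn2
  set H : E n → E m := fun z => η • G' (ε⁻¹ • z) with hH
  have hHG : ∀ z, ‖H z - G z‖ ≤ η := by
    intro z
    have h1 : G z = η • Gn (ε⁻¹ • z) := by
      show G z = η • (η⁻¹ • G (ε • (ε⁻¹ • z)))
      rw [smul_inv_smul₀ hηpos.ne', smul_inv_smul₀ hε.ne']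
    rw [h1]
    show ‖η • G' (ε⁻¹ • z) - η • Gn (ε⁻¹ • z)‖ ≤ η
    rw [← smul_sub, norm_smul, Real.norm_of_nonneg hηpos.le]
    have := hG'3 (ε⁻¹ • z)
    nlinarith
  by_contra hno
  push Not at hno
  have hcore : Core M h F z0 t0 δ ε s0 κ Λ η S.card x ι H :=
    { cht := hcht
      δpos := hδ
      δle := hd1
      εpos := hε
      ε20 := by linarith
      κpos := hκ
      κle := hκ1
      ηpos := hηpos
      s0le := hs0'
      ηle := by rw [hη]; linarith
      Λ0 := hΛ0
      Λle := hd3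
      smF := hF
      near := hFh
      small := by
        intro y hy
        have h1 := hsmall y hy
        have h2 := hFh y (by linarith)
        calc dist (F y) z0 ≤ dist (F y) (h y) + dist (h y) z0 := dist_triangle _ _ _
          _ < t0 := by rw [dist_eq_norm (F y)]; nlinarith
      smG := (hG'1.comp (contDiff_id.const_smul ε⁻¹)).const_smul η
      lip := by
        intro z z'
        show ‖η • G' (ε⁻¹ • z) - η • G' (ε⁻¹ • z')‖ ≤ _
        rw [← smul_sub, norm_smul, Real.norm_of_nonneg hηpos.le, ← dist_eq_norm]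
        have h1 := hG'2.dist_le_mul (ε⁻¹ • z) (ε⁻¹ • z')
        rw [dist_smul₀, Real.norm_of_nonneg (by positivity), dist_eq_norm z] at h1
        calc η * dist (G' (ε⁻¹ • z)) (G' (ε⁻¹ • z')) ≤ η * (Λ * (ε⁻¹ * ‖z - z'‖)) :=
              mul_le_mul_of_nonneg_left h1 hηpos.le
          _ = _ := by ring
      close := by
        intro y hy
        have h1 := hHG (F y)
        have h2 := hGh y hy
        have h3 : ‖G (F y) - G (h y)‖ ≤ η := by
          rw [← dist_eq_norm]
          have h4 := hG2.dist_le_mul (F y) (h y)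
          rw [dist_eq_norm (F y)] at h4
          have h5 := hFh y hy
          nlinarith
        calc ‖H (F y) - y‖ = ‖(H (F y) - G (F y)) + (G (F y) - G (h y)) + (G (h y) - y)‖ := by
              congr 1; abel
          _ ≤ ‖H (F y) - G (F y)‖ + ‖G (F y) - G (h y)‖ + ‖G (h y) - y‖ := norm_add₃_le
          _ ≤ _ := by linarith
      wall := by
        intro k z h1 h2
        have h3 : ε⁻¹ • z ∈ Wall (ι k) (ε⁻¹ • x k) δ1 := by
          have h4 : ε⁻¹ • z - ε⁻¹ • x k = ε⁻¹ • (z - x k) := (smul_sub _ _ _).symm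
          constructor
          · rw [h4, map_smul, norm_smul, Real.norm_of_nonneg (by positivity)]
            have h5 : ε⁻¹ * ‖ad (ι k) (z - x k)‖ - 1 = ε⁻¹ * (‖ad (ι k) (z - x k)‖ - ε) := by
              field_simp
            rw [h5, abs_mul, abs_of_pos (by positivity : (0 : ℝ) < ε⁻¹), inv_mul_eq_div,
              div_le_iff₀ hε]
            nlinarith
          · rw [h4, map_smul, norm_smul, Real.norm_of_nonneg (by positivity), inv_mul_eq_div,
              div_le_iff₀ hε]
            nlinarith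
        have h5 := hG'4 k _ h3
        show κ * η ≤ ‖η • G' (ε⁻¹ • z)‖
        rw [norm_smul, Real.norm_of_nonneg hηpos.le]
        nlinarith
      xd := by
        intro k
        have := (hxA k).2
        rw [mem_closedBall] at this
        linarith
      flat := hι
      cover := by
        intro y hy hGy
        have h1 : ‖H (F y) - y‖ ≤ 3 * η := by
          have h1 := hHG (F y)
          have h2 := hGh y hy.le
          have h3 : ‖G (F y) - G (h y)‖ ≤ η := by
            rw [← dist_eq_norm]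
            have h4 := hG2.dist_le_mul (F y) (h y)
            rw [dist_eq_norm (F y)] at h4
            have h5 := hFh y hy.le
            nlinarith
          calc ‖H (F y) - y‖ = ‖(H (F y) - G (F y)) + (G (F y) - G (h y)) + (G (h y) - y)‖ := by
                congr 1; abel
            _ ≤ ‖H (F y) - G (F y)‖ + ‖G (F y) - G (h y)‖ + ‖G (h y) - y‖ := norm_add₃_le
            _ ≤ _ := by linarith
        have h2 : ‖y‖ ≤ s0 := by
          have h3 : ‖y‖ ≤ ‖H (F y)‖ + ‖H (F y) - y‖ := by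
            calc ‖y‖ = ‖H (F y) - (H (F y) - y)‖ := by congr 1; abel
              _ ≤ _ := norm_sub_le _ _
          nlinarith
        have h3 := hsmall y h2
        have h4 : h y ∈ A := ⟨hcht.maps y hy.le, by rw [mem_closedBall]; exact h3.le⟩
        have h5 : idx σ (h y) ∈ S := hfin.mem_toFinset.mpr ⟨h y, h4, rfl⟩
        refine ⟨e.symm ⟨_, h5⟩, ?_⟩
        have h6 : idx σ (h y) = idx σ (x (e.symm ⟨_, h5⟩)) := by
          rw [hxidx, Equiv.apply_symm_apply]
        have h7 := dist_le_of_idx hσpos h6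
        have h8 : σ * (n + 1) = ε / 4 := by
          rw [hσ]; field_simp
        rw [h8] at h7
        have h9 := hFh y hy.le
        calc dist (F y) (x (e.symm ⟨_, h5⟩)) ≤ dist (F y) (h y) +
              dist (h y) (x (e.symm ⟨_, h5⟩)) := dist_triangle _ _ _
          _ < ε / 2 := by rw [dist_eq_norm (F y)]; nlinarith }
  apply core hHM hMS hcore
  intro k hk
  have h1 := (hxA k).2
  rw [mem_closedBall] at h1
  exact hno (x k) (hxA k).1 (by linarith) (ι k) (hι k) hk

end Pool.Agent.Q77.BT
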