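import Pool.Agent.Q77.BT.Deg

/-!
# Project BT: local density at all small scales
-/

set_option autoImplicit false

open MeasureTheory Set Metric Filter Topology
open scoped NNReal RealInnerProductSpace

noncomputable section

namespace Pool.Agent.Q77.BT

theorem loc (hHM : S_HM) (hPR : S_PR) (hAng : S_ANG) (hLG : S_LG) (hA : S_APR) : S_LOC := by
  intro m n hm
  obtain ⟨δ0, hδ0, hlg⟩ := hLG m n hm
  refine ⟨min δ0 (1 / 10000), by positivity, ?_⟩
  intro M h z0 t0 hcht δ R hδ hδle hR hLA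
  have hδ2 : δ ≤ 1 / 10000 := hδle.trans (min_le_right _ _)
  have ht0 := hcht.pos
  set T : ℝ := min t0 (R / 2) with hT
  have hTpos : 0 < T := lt_min ht0 (by linarith)
  have hT1 : T ≤ t0 := min_le_left _ _
  have hT2 : T < R := by
    have : T ≤ R / 2 := min_le_right _ _
    linarith
  obtain ⟨ε0, hε0, hlg'⟩ := hlg M h z0 t0 hcht δ R hδ (hδle.trans (min_le_left _ _)) hR hLA
    (T / 400) (by positivity)
  refine ⟨T / 400, by positivity, ?_⟩
  intro z hz hzd t ht htle ι hι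
  set ε : ℝ := min (ε0 / 2) (t / 40) with hε
  have hεpos : 0 < ε := lt_min (by linarith) (by linarith)
  have hε1 : ε < ε0 := (min_le_left _ _).trans_lt (by linarith)
  have hε2 : 20 * ε ≤ t := by
    have : ε ≤ t / 40 := min_le_right _ _
    linarith
  obtain ⟨F, L, hF1, -, hF2⟩ := hA m n (closedBall 0 1) (isCompact_closedBall 0 1) h hcht.cont
    (δ * ε) (by positivity)
  have hF3 : ∀ y : E m, ‖y‖ ≤ 1 → ‖F y - h y‖ ≤ δ * ε := fun y hy =>
    hF2 y (by rw [mem_closedBall_zero_iff]; exact hy)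
  obtain ⟨x, hx, hxd, ι0, hι0, hN0⟩ := hlg' ε hεpos hε1 F hF1 hF3
  have mk : ∀ (x' : E n) (s : ℝ) (ι' : Fr m n), x' ∈ M → dist x' z0 ≤ t0 → 20 * ε ≤ s → s ≤ T →
      Fl M x' s δ ι' → Pair M h F z0 t0 δ x' s ι' := by
    intro x' s ι' h1 h2 h3 h4 h5
    exact
      { cht := hcht
        smooth := hF1
        near := fun y hy => (hF3 y hy).trans (by
          apply mul_le_mul_of_nonneg_left _ hδ.le
          linarith)
        mem := h1
        dist_le := h2
        tpos := by linarith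
        le := h4.trans hT1
        flat := h5 }
  have hxt0 : dist x z0 ≤ t0 := by linarith
  have hzt0 : dist z z0 ≤ t0 := by linarith
  -- upwards
  have hup : ∀ k : ℕ, 20 * ε * 2 ^ k ≤ T → ∀ ι' : Fr m n, Fl M x (20 * ε * 2 ^ k) δ ι' →
      NZ F ι' x (20 * ε * 2 ^ k) := by
    intro k
    induction k with
    | zero =>
      intro hk ι' hι'
      rw [pow_zero, mul_one] at hk hι' ⊢
      exact up hHM hPR hAng m n M h F z0 t0 δ x x (20 * ε) (20 * ε) ι' ι0 hδ hδ2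
        (mk x _ ι' hx hxt0 le_rfl hk hι') (mk x _ ι0 hx hxt0 le_rfl hk hι0)
        (by rw [dist_self]; positivity) (by linarith) le_rfl hN0
    | succ k ih =>
      intro hk ι' hι'
      have h2k : (1 : ℝ) ≤ 2 ^ k := one_le_pow₀ (by norm_num)
      have h1 : 20 * ε * 2 ^ (k + 1) = 2 * (20 * ε * 2 ^ k) := by ring
      have h2 : 20 * ε ≤ 20 * ε * 2 ^ k := by nlinarith
      have h3 : 20 * ε * 2 ^ k ≤ T := by nlinarith
      obtain ⟨ι1, hι1⟩ := hLA x hx (20 * ε * 2 ^ k) (by positivity) (by linarith)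
      exact up hHM hPR hAng m n M h F z0 t0 δ x x (20 * ε * 2 ^ (k + 1)) (20 * ε * 2 ^ k) ι' ι1
        hδ hδ2 (mk x _ ι' hx hxt0 (by linarith) hk hι') (mk x _ ι1 hx hxt0 h2 h3 hι1)
        (by rw [dist_self]; positivity) (by linarith) (by linarith) (ih h3 ι1 hι1)
  -- the top scale
  obtain ⟨k, hk1, hk2⟩ := exists_nat_pow_near (x := T / (20 * ε)) (y := (2 : ℝ))
    (by rw [le_div_iff₀ (by positivity)]; linarith) (by norm_num)
  rw [le_div_iff₀ (by positivity)] at hk1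
  rw [div_lt_iff₀ (by positivity)] at hk2
  set s : ℝ := 20 * ε * 2 ^ k with hs
  have hs1 : s ≤ T := by rw [hs]; linarith
  have hs2 : T / 2 < s := by
    rw [pow_succ] at hk2
    rw [hs]; linarith
  have hs3 : 20 * ε ≤ s := by linarith
  obtain ⟨ιx, hιx⟩ := hLA x hx s (by linarith) (by linarith)
  obtain ⟨ιz, hιz⟩ := hLA z hz s (by linarith) (by linarith)
  have hxz : dist x z ≤ s / 40 := by
    calc dist x z ≤ dist x z0 + dist z0 z := dist_triangle _ _ _
      _ ≤ s / 40 := by rw [dist_comm z0 z]; linarith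
  have hNz : NZ F ιz z s := down hHM hPR hAng m n M h F z0 t0 δ x z s s ιx ιz hδ hδ2
    (mk x _ ιx hx hxt0 hs3 hs1 hιx) (mk z _ ιz hz hzt0 hs3 hs1 hιz) hxz (by linarith) le_rfl
    (hup k hs1 ιx hιx)
  -- downwards
  have hdown : ∀ k : ℕ, ∀ s' : ℝ, s / 4 ^ k ≤ s' → s' ≤ s → 20 * ε ≤ s' → ∀ ι' : Fr m n,
      Fl M z s' δ ι' → NZ F ι' z s' := by
    intro k
    induction k with
    | zero =>
      intro s' h1 h2 h3 ι' hι'
      rw [pow_zero, div_one] at h1
      have h4 : s' = s := le_antisymm h2 h1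
      rw [h4] at h3 hι' ⊢
      exact up hHM hPR hAng m n M h F z0 t0 δ z z s s ι' ιz hδ hδ2
        (mk z _ ι' hz hzt0 h3 hs1 hι') (mk z _ ιz hz hzt0 h3 hs1 hιz)
        (by rw [dist_self]; linarith) (by linarith) le_rfl hNz
    | succ k ih =>
      intro s' h1 h2 h3 ι' hι'
      by_cases h4 : s / 4 ^ k ≤ s'
      · exact ih s' h4 h2 h3 ι' hι'
      · push Not at h4
        have h5 : s / 4 ^ k ≤ s := by
          apply div_le_self (by linarith)
          exact one_le_pow₀ (by norm_num)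
        have h6 : s / 4 ^ (k + 1) = (s / 4 ^ k) / 4 := by
          rw [pow_succ]; field_simp
        obtain ⟨ι1, hι1⟩ := hLA z hz (s / 4 ^ k) (by linarith) (by linarith)
        have h7 := ih (s / 4 ^ k) le_rfl h5 (by linarith) ι1 hι1
        exact down hHM hPR hAng m n M h F z0 t0 δ z z (s / 4 ^ k) s' ι1 ι' hδ hδ2
          (mk z _ ι1 hz hzt0 (by linarith) (by linarith) hι1)
          (mk z _ ι' hz hzt0 h3 (by linarith) hι')
          (by rw [dist_self]; apply div_nonneg _ (by norm_num); linarith)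
          (by rw [h6] at h1; exact h1) h4.le h7
  obtain ⟨j, hj⟩ : ∃ j : ℕ, s / 4 ^ j ≤ t := by
    obtain ⟨j, hj⟩ := exists_nat_gt (s / t)
    refine ⟨j, ?_⟩
    rw [div_le_iff₀ (by positivity)]
    rw [div_lt_iff₀ ht] at hj
    have h1 : (j : ℝ) ≤ 4 ^ j := by
      have : j < 4 ^ j := Nat.lt_pow_self (by norm_num)
      exact_mod_cast this.le
    nlinarith
  have hfin := hdown j t hj (by linarith) hε2 ι hι
  exact den hPR m n M h F z0 t0 δ z t ι hδ hδ2 (mk z t ι hz hzt0 hε2 (by linarith) hι) hfin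

/-- uniform local density on a compact set -/
theorem locu (hloc : S_LOC) (hC : S_CHT) : ∀ m n : ℕ, 1 ≤ m → ∃ δ0 : ℝ, 0 < δ0 ∧
    ∀ M : Set (E n), IsCompact M → Nonempty (ChartedSpace (E m) M) → ∀ δ R : ℝ, 0 < δ →
    δ ≤ δ0 → 0 < R → LA m M δ R →
    ∃ t1 : ℝ, 0 < t1 ∧ ∀ z ∈ M, ∀ t : ℝ, 0 < t → t ≤ t1 → ∀ ι : Fr m n,
      Fl M z t δ ι → De M z t (4 * δ) ι := by
  intro m n hm
  obtain ⟨δ0, hδ0, hl⟩ := hloc m n hm
  refine ⟨δ0, hδ0, ?_⟩
  intro M hM hch δ R hδ hδle hR hLA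
  have h1 : ∀ z0 ∈ M, ∃ t1 : ℝ, 0 < t1 ∧ ∀ z ∈ M, dist z z0 ≤ t1 → ∀ t : ℝ, 0 < t → t ≤ t1 →
      ∀ ι : Fr m n, Fl M z t δ ι → De M z t (4 * δ) ι := by
    intro z0 hz0
    obtain ⟨h, t0, hcht⟩ := hC m n M hM hch z0 hz0
    exact hl M h z0 t0 hcht δ R hδ hδle hR hLA
  choose! t1 ht1 hd using h1
  obtain ⟨S, hS1, hS2⟩ := hM.elim_nhds_subcover (fun z0 => ball z0 (t1 z0))
    (fun z0 hz0 => ball_mem_nhds z0 (ht1 z0 hz0))
  by_cases hne : S.Nonempty
  · obtain ⟨a, ha, hmin⟩ := S.exists_min_image t1 hne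
    refine ⟨t1 a, ht1 a (hS1 a ha), ?_⟩
    intro z hz t ht htle ι hι
    obtain ⟨z0, hz0, hz1⟩ := mem_iUnion₂.mp (hS2 hz)
    exact hd z0 (hS1 z0 hz0) z hz (le_of_lt hz1) t ht (htle.trans (hmin z0 hz0)) ι hι
  · refine ⟨1, one_pos, fun z hz => ?_⟩
    obtain ⟨z0, hz0, -⟩ := mem_iUnion₂.mp (hS2 hz)
    exact absurd ⟨z0, hz0⟩ hne

end Pool.Agent.Q77.BT
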