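import Pool.Agent.Q77.BT.MainA
import Pool.Agent.Q177.BT.PUSH

/-!
# Project BT: the theorem
-/

set_option autoImplicit false

namespace Pool.Agent.Q77.BT

theorem main : S_MAIN :=
  main_of (Pool.Agent.Q177.BT.near Pool.Agent.Q110.BT.sym Pool.Agent.Q110.BT.ang
    (Pool.Agent.Q177.BT.push Pool.Agent.Q110.BT.sym Pool.Agent.Q110.BT.ang))

end Pool.Agent.Q77.BT
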