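import Pool.Agent.Q77.BT.LG
import Pool.Agent.Q77.BT.Loc
import Pool.Agent.Q6.BT.HM
import Pool.Agent.Q225.BT.MS
import Pool.Agent.Q225.BT.VEC
import Pool.Agent.Q225.BT.APR
import Pool.Agent.Q225.BT.BET
import Pool.Agent.Q216.BT.WALL
import Pool.Agent.Q216.BT.WALK
import Pool.Agent.Q110.BT.Ang
import Pool.Agent.Q110.BT.Top

/-!
# Project BT: assembly
-/

set_option autoImplicit false

open MeasureTheory Set Metric Filter Topology
open scoped NNReal RealInnerProductSpace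

noncomputable section

namespace Pool.Agent.Q77.BT

theorem s_loc : S_LOC :=
  loc Pool.Agent.Q6.BT.hm Pool.Agent.Q6.BT.pr Pool.Agent.Q110.BT.ang
    (lg Pool.Agent.Q6.BT.hm Pool.Agent.Q225.BT.ms
      (Pool.Agent.Q216.BT.wall Pool.Agent.Q225.BT.vec) Pool.Agent.Q225.BT.apr)
    Pool.Agent.Q225.BT.apr

/-- a closed manifold with small beta numbers is dense in all approximating planes -/
theorem all_dense : ∀ m n : ℕ, 1 ≤ m → ∃ δ0 : ℝ, 0 < δ0 ∧
    ∀ M : Set (E n), IsCompact M → Nonempty (ChartedSpace (E m) M) → ∀ δ R : ℝ, 0 < δ →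
    δ ≤ δ0 → 0 < R → LA m M δ R → AD m M δ R := by
  intro m n hm
  obtain ⟨δ0, hδ0, hl⟩ := locu s_loc Pool.Agent.Q225.BT.cht m n hm
  refine ⟨min δ0 (1 / 10 ^ 6), by positivity, ?_⟩
  intro M hM hch δ R hδ hδle hR hLA
  obtain ⟨t1, ht1, hden⟩ := hl M hM hch δ R hδ (hδle.trans (min_le_left _ _)) hR hLA
  exact Pool.Agent.Q216.BT.gd (Pool.Agent.Q216.BT.walk Pool.Agent.Q110.BT.sym
    Pool.Agent.Q110.BT.ang) m n M δ R t1 hδ (hδle.trans (min_le_right _ _)) ht1 hLA hden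

theorem main_of (hnear : S_NEAR) : S_MAIN := by
  intro m n hm hmn
  obtain ⟨δ0, hδ0, hAD⟩ := all_dense m n hm
  refine ⟨min δ0 (1 / 10 ^ 6), by positivity, (min_le_right _ _).trans_lt (by norm_num), ?_⟩
  intro M hM hch δ R hδ hδlt hR hβ x hx r hr hrR
  have hδ6 : δ ≤ 1 / 10 ^ 6 := hδlt.le.trans (min_le_right _ _)
  have hδs : δ ≤ 1 / 20 := hδ6.trans (by norm_num)
  have hLA : LA m M δ R := fun x hx t ht htR =>
    Pool.Agent.Q225.BT.bet m n M x t δ hmn ht (hβ x hx t ht htR)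
  have hA : AD m M δ R := hAD M hM hch δ R hδ (hδlt.le.trans (min_le_left _ _)) hR hLA
  have hb0 := Pool.Agent.Q225.BT.beta_nonneg m M x r hr
  have key : ∀ b, beta m M x r < b → b ≤ δ → theta m M x r ≤ (1 + δ ^ 2 / 2) * b := by
    intro b hb hbδ
    have hbpos : 0 < b := lt_of_le_of_lt hb0 hb
    obtain ⟨ι, hι⟩ := Pool.Agent.Q225.BT.bet m n M x r b hmn hr hb
    have hFl : Fl M x r δ ι := fun z hz hd =>
      (hι z hz hd).trans (mul_le_mul_of_nonneg_right hbδ hr.le)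
    refine Pool.Agent.Q225.BT.the m n M x r b δ ι hx hr hbpos hbδ (by linarith) hι ?_
    exact Pool.Agent.Q110.BT.top m n M x r (b * r) ι hM hr (by positivity) (by nlinarith) hι
      (hnear m n M δ R hM hδ hδ6 hLA hA x hx r hr hrR ι hFl)
  have hβx := hβ x hx r hr hrR
  apply le_of_forall_pos_le_add
  intro e he
  have h1 := key (min δ (beta m M x r + e / 2)) (lt_min hβx (by linarith)) (min_le_left _ _)
  have h2 : min δ (beta m M x r + e / 2) ≤ beta m M x r + e / 2 := min_le_right _ _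
  have h3 : (1 + δ ^ 2 / 2) ≤ 2 := by nlinarith
  calc theta m M x r ≤ (1 + δ ^ 2 / 2) * min δ (beta m M x r + e / 2) := h1
    _ ≤ (1 + δ ^ 2 / 2) * (beta m M x r + e / 2) := mul_le_mul_of_nonneg_left h2 (by positivity)
    _ ≤ _ := by nlinarith

end Pool.Agent.Q77.BT
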