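import Pool.Agent.Y489.SP.Stm

/-!
# Project BT (helper77): beta and theta numbers of closed topological manifolds

Definitions and exact statements. `E n` is Euclidean space. A plane of dimension `m` is the range of
a linear isometry `ι : E m → E n` (a frame), `ad ι` is the adjoint (coordinates of the orthogonal
projection to the plane) and `off ι` is the projection to the orthogonal complement.
-/

set_option autoImplicit false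

open MeasureTheory Set Metric Filter Topology
open scoped NNReal

noncomputable section

namespace Pool.Agent.Q77.BT

/-- Euclidean space. -/
abbrev E (n : ℕ) := EuclideanSpace ℝ (Fin n)

/-- A frame of an `m`-plane. -/
abbrev Fr (m n : ℕ) := E m →ₗᵢ[ℝ] E n

/-- Coordinates of the orthogonal projection to the plane. -/
def ad {m n : ℕ} (ι : Fr m n) : E n →L[ℝ] E m :=
  ContinuousLinearMap.adjoint ι.toContinuousLinearMap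

/-- The component orthogonal to the plane. -/
def off {m n : ℕ} (ι : Fr m n) : E n →L[ℝ] E n :=
  ContinuousLinearMap.id ℝ (E n) - ι.toContinuousLinearMap ∘L ad ι

/-- `M ∩ B(x, t)` lies in the slab of half width `δ t` around `x + range ι`. -/
def Fl {m n : ℕ} (M : Set (E n)) (x : E n) (t δ : ℝ) (ι : Fr m n) : Prop :=
  ∀ z ∈ M, dist z x ≤ t → ‖off ι (z - x)‖ ≤ δ * t

/-- `M` is `c t`-dense in the disc of radius `t / 10` of `x + range ι`. -/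
def De {m n : ℕ} (M : Set (E n)) (x : E n) (t c : ℝ) (ι : Fr m n) : Prop :=
  ∀ p : E m, ‖p‖ ≤ t / 10 → ∃ z ∈ M, ‖z - x - ι p‖ ≤ c * t

/-- the linear approximation property -/
def LA {n : ℕ} (m : ℕ) (M : Set (E n)) (δ R : ℝ) : Prop :=
  ∀ x ∈ M, ∀ t : ℝ, 0 < t → t < R → ∃ ι : Fr m n, Fl M x t δ ι

/-- A chart of `M` at `z0`. -/
structure Cht {m n : ℕ} (M : Set (E n)) (h : E m → E n) (z0 : E n) (t0 : ℝ) : Prop where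
  pos : 0 < t0
  cont : ContinuousOn h (closedBall 0 1)
  inj : InjOn h (closedBall 0 1)
  maps : ∀ y : E m, ‖y‖ ≤ 1 → h y ∈ M
  zero : h 0 = z0
  surj : ∀ z ∈ M, dist z z0 ≤ 2 * t0 → ∃ y : E m, ‖y‖ ≤ 1 / 2 ∧ h y = z

/-- The part of the unit ball mapped to `O`. -/
def UU {m n : ℕ} (F : E m → E n) (O : Set (E n)) : Set (E m) := {y | ‖y‖ < 1 ∧ F y ∈ O}

/-- The integral which defines the degree. -/
def dg {m n : ℕ} (F : E m → E n) (O : Set (E n)) (f : E m → E m) (φ : E m → ℝ) : ℝ :=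
  ∫ y in UU F O, φ (f y) * (fderiv ℝ f y).det

/-- The degree of the projection to the plane at `(x, t)` is not zero. -/
def NZ {m n : ℕ} (F : E m → E n) (ι : Fr m n) (x : E n) (t : ℝ) : Prop :=
  ∃ φ : E m → ℝ, Continuous φ ∧ (∀ p, t / 10 ≤ ‖p‖ → φ p = 0) ∧
    dg F (ball x (t / 2)) (fun y => ad ι (F y - x)) φ ≠ 0

/-! ### degree theory -/

/-- homotopy -/
def S_HM : Prop := ∀ (m n : ℕ) (F : E m → E n), Continuous F → ∀ O : Set (E n), IsOpen O →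
  (∀ y ∈ UU F O, ‖y‖ ≤ 1 / 2) → ∀ e : ℝ, 0 < e → ∀ f1 f2 : E m → E m, ContDiff ℝ 1 f1 →
  ContDiff ℝ 1 f2 → ∀ (ρ : ℝ) (a : E m), 0 < ρ →
  (∀ y : E m, ‖y‖ < 1 → F y ∉ O → (∃ w ∈ O, dist (F y) w < e) → ∀ s ∈ Icc (0 : ℝ) 1,
    ρ ≤ ‖f1 y + s • (f2 y - f1 y) - a‖) →
  ∀ φ : E m → ℝ, Continuous φ → (∀ w, ρ ≤ ‖w - a‖ → φ w = 0) → dg F O f2 φ = dg F O f1 φ

/-- proportionality to the integral -/
def S_PR : Prop := ∀ (m n : ℕ) (F : E m → E n), Continuous F → ∀ O : Set (E n), IsOpen O →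
  (∀ y ∈ UU F O, ‖y‖ ≤ 1 / 2) → ∀ e : ℝ, 0 < e → ∀ f : E m → E m, ContDiff ℝ 1 f →
  ∀ (ρ : ℝ) (a : E m), 0 < ρ →
  (∀ y : E m, ‖y‖ < 1 → F y ∉ O → (∃ w ∈ O, dist (F y) w < e) → 2 * ρ ≤ ‖f y - a‖) →
  ∃ d : ℝ, ∀ φ : E m → ℝ, Continuous φ → (∀ w, ρ / 2 ≤ ‖w - a‖ → φ w = 0) →
    dg F O f φ = d * ∫ w, φ w

/-- measurable test functions -/
def S_MS : Prop := ∀ (m : ℕ) (U : Set (E m)) (f : E m → E m) (g : E m → ℝ), IsOpen U →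
  Bornology.IsBounded U → Continuous f → Continuous g → ∀ ρ ρ' : ℝ, ρ' < ρ →
  (∀ φ : E m → ℝ, Continuous φ → (∀ w, ρ ≤ ‖w‖ → φ w = 0) → ∫ y in U, φ (f y) * g y = 0) →
  ∀ ψ : E m → ℝ, Measurable ψ → (∃ C : ℝ, ∀ w, |ψ w| ≤ C) → (∀ w, ρ' ≤ ‖w‖ → ψ w = 0) →
    ∫ y in U, ψ (f y) * g y = 0

/-! ### quantitative transversality -/

/-- the wall of the cylinder of radius one -/
def Wall {m n : ℕ} (ι : Fr m n) (x : E n) (δ1 : ℝ) : Set (E n) :=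
  {z | |‖ad ι (z - x)‖ - 1| ≤ δ1 ∧ ‖off ι (z - x)‖ ≤ δ1}

/-- covers of the unit sphere -/
def S_SPH : Prop := ∀ m : ℕ, 1 ≤ m → ∀ θ : ℝ, 0 < θ → ∃ (s : ℝ) (T : Finset (E m)), 0 < s ∧
  s ≤ 1 ∧ (∀ p : E m, ‖p‖ = 1 → ∃ q ∈ T, ‖p - q‖ ≤ s) ∧ (T.card : ℝ) * s ^ m ≤ θ

/-- one vector -/
def S_VEC : Prop := ∀ m n : ℕ, 1 ≤ m → ∀ (Λ : ℝ≥0) (a : ℝ), 0 < a → ∃ b δ1 : ℝ, 0 < b ∧ 0 < δ1 ∧
  ∀ (ι : Fr m n) (x : E n) (g : E n → E m), LipschitzWith Λ g →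
    ∃ v : E m, ‖v‖ ≤ a ∧ ∀ z ∈ Wall ι x δ1, b ≤ ‖g z - v‖

/-- a small perturbation without zeros on all walls -/
def S_WALL : Prop := ∀ m n N : ℕ, 1 ≤ m → ∃ (κ δ1 : ℝ) (Λ : ℝ≥0), 0 < κ ∧ κ ≤ 1 ∧ 0 < δ1 ∧
  ∀ (I : Type) [Finite I] (col : I → Fin N) (x : I → E n) (ι : I → Fr m n),
  (∀ i j, i ≠ j → col i = col j → 8 ≤ dist (x i) (x j)) →
  ∀ G : E n → E m, ContDiff ℝ 1 G → LipschitzWith 1 G →
  ∃ G' : E n → E m, ContDiff ℝ 1 G' ∧ LipschitzWith Λ G' ∧ (∀ z, ‖G' z - G z‖ ≤ 1) ∧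
    ∀ i, ∀ z ∈ Wall (ι i) (x i) δ1, κ ≤ ‖G' z‖

/-! ### from the chart to the degrees -/

/-- smooth approximation on a compact set -/
def S_APR : Prop := ∀ (m n : ℕ) (K : Set (E m)), IsCompact K → ∀ g : E m → E n,
  ContinuousOn g K → ∀ e : ℝ, 0 < e → ∃ (G : E m → E n) (L : ℝ≥0), ContDiff ℝ 1 G ∧
    LipschitzWith L G ∧ ∀ z ∈ K, ‖G z - g z‖ ≤ e

/-- charts -/
def S_CHT : Prop := ∀ (m n : ℕ) (M : Set (E n)), IsCompact M → Nonempty (ChartedSpace (E m) M) →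
  ∀ z0 ∈ M, ∃ (h : E m → E n) (t0 : ℝ), Cht M h z0 t0

/-- local to global: at each small scale some degree is not zero -/
def S_LG : Prop := ∀ m n : ℕ, 1 ≤ m → ∃ δ0 : ℝ, 0 < δ0 ∧ ∀ (M : Set (E n)) (h : E m → E n)
  (z0 : E n) (t0 : ℝ), Cht M h z0 t0 → ∀ δ R : ℝ, 0 < δ → δ ≤ δ0 → 0 < R → LA m M δ R →
  ∀ t1 : ℝ, 0 < t1 → ∃ ε0 : ℝ, 0 < ε0 ∧ ∀ ε : ℝ, 0 < ε → ε < ε0 → ∀ F : E m → E n,
  ContDiff ℝ 1 F → (∀ y, ‖y‖ ≤ 1 → ‖F y - h y‖ ≤ δ * ε) →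
  ∃ x ∈ M, dist x z0 ≤ t1 ∧ ∃ ι : Fr m n, Fl M x (20 * ε) δ ι ∧ NZ F ι x (20 * ε)

/-- the standing assumptions in the comparison of two pairs `(x, t)` and `(x', t')` -/
structure Pair {m n : ℕ} (M : Set (E n)) (h F : E m → E n) (z0 : E n) (t0 δ : ℝ) (x : E n)
    (t : ℝ) (ι : Fr m n) : Prop where
  cht : Cht M h z0 t0
  smooth : ContDiff ℝ 1 F
  near : ∀ y, ‖y‖ ≤ 1 → ‖F y - h y‖ ≤ δ * t
  mem : x ∈ M
  dist_le : dist x z0 ≤ t0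
  tpos : 0 < t
  le : t ≤ t0
  flat : Fl M x t δ ι

/-- a nonzero degree gives density -/
def S_DEN : Prop := ∀ (m n : ℕ) (M : Set (E n)) (h F : E m → E n) (z0 : E n) (t0 δ : ℝ) (x : E n)
  (t : ℝ) (ι : Fr m n), 0 < δ → δ ≤ 1 / 10000 → Pair M h F z0 t0 δ x t ι → NZ F ι x t →
  De M x t (4 * δ) ι

/-- to smaller scales -/
def S_DOWN : Prop := ∀ (m n : ℕ) (M : Set (E n)) (h F : E m → E n) (z0 : E n) (t0 δ : ℝ)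
  (x x' : E n) (t t' : ℝ) (ι ι' : Fr m n), 0 < δ → δ ≤ 1 / 10000 → Pair M h F z0 t0 δ x t ι →
  Pair M h F z0 t0 δ x' t' ι' → dist x x' ≤ t / 40 → t / 4 ≤ t' → t' ≤ t → NZ F ι x t →
  NZ F ι' x' t'

/-- to larger scales -/
def S_UP : Prop := ∀ (m n : ℕ) (M : Set (E n)) (h F : E m → E n) (z0 : E n) (t0 δ : ℝ)
  (x x' : E n) (t t' : ℝ) (ι ι' : Fr m n), 0 < δ → δ ≤ 1 / 10000 → Pair M h F z0 t0 δ x t ι →
  Pair M h F z0 t0 δ x' t' ι' → dist x x' ≤ t / 40 → t / 4 ≤ t' → t' ≤ t → NZ F ι' x' t' →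
  NZ F ι x t

/-- local density at all small scales -/
def S_LOC : Prop := ∀ m n : ℕ, 1 ≤ m → ∃ δ0 : ℝ, 0 < δ0 ∧ ∀ (M : Set (E n)) (h : E m → E n)
  (z0 : E n) (t0 : ℝ), Cht M h z0 t0 → ∀ δ R : ℝ, 0 < δ → δ ≤ δ0 → 0 < R → LA m M δ R →
  ∃ t1 : ℝ, 0 < t1 ∧ ∀ z ∈ M, dist z z0 ≤ t1 → ∀ t : ℝ, 0 < t → t ≤ t1 → ∀ ι : Fr m n,
    Fl M z t δ ι → De M z t (4 * δ) ι

/-! ### planes -/

/-- symmetry of the angle -/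
def S_SYM : Prop := ∀ (m n : ℕ) (ι ι' : Fr m n) (a : ℝ), 0 ≤ a → a ≤ 1 / 2 →
  (∀ p : E m, ‖off ι (ι' p)‖ ≤ a * ‖p‖) → ∀ p : E m, ‖off ι' (ι p)‖ ≤ 2 * a * ‖p‖

/-- a plane which is full is close to each approximating plane -/
def S_ANG : Prop := ∀ (m n : ℕ) (M : Set (E n)) (x : E n) (t c δ s : ℝ) (ι ι' : Fr m n), 0 < t →
  0 ≤ c → c ≤ 1 / 40 → De M x t c ι' → Fl M x t δ ι' →
  (∀ z ∈ M, dist z x ≤ t / 5 → ‖off ι (z - x)‖ ≤ s * t) →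
  ∀ p : E m, ‖off ι (ι' p)‖ ≤ 20 * (s + δ) * ‖p‖

/-- walking -/
def S_WALK : Prop := ∀ (m n : ℕ) (M : Set (E n)) (δ s : ℝ), 0 < δ → δ ≤ 1 / 10 ^ 6 → 0 < s →
  (∀ x ∈ M, ∃ ι : Fr m n, Fl M x (s / 2) δ ι ∧ De M x (s / 2) (1 / 1000) ι) →
  ∀ x ∈ M, ∀ ι : Fr m n, Fl M x s δ ι → ∀ p : E m, ‖p‖ ≤ 3 / 5 * s →
    ∃ z ∈ M, ‖z - x - ι p‖ ≤ 1 / 1000 * s

/-- density at all scales -/
def S_GD : Prop := ∀ (m n : ℕ) (M : Set (E n)) (δ R t1 : ℝ), 0 < δ → δ ≤ 1 / 10 ^ 6 → 0 < t1 →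
  LA m M δ R →
  (∀ z ∈ M, ∀ t : ℝ, 0 < t → t ≤ t1 → ∀ ι : Fr m n, Fl M z t δ ι → De M z t (4 * δ) ι) →
  ∀ x ∈ M, ∀ s : ℝ, 0 < s → s < R → ∀ ι : Fr m n, Fl M x s δ ι → ∀ p : E m, ‖p‖ ≤ 3 / 5 * s →
    ∃ z ∈ M, ‖z - x - ι p‖ ≤ 1 / 1000 * s

/-- `M` is dense in all approximating planes -/
def AD {n : ℕ} (m : ℕ) (M : Set (E n)) (δ R : ℝ) : Prop :=
  ∀ x ∈ M, ∀ s : ℝ, 0 < s → s < R → ∀ ι : Fr m n, Fl M x s δ ι → ∀ p : E m, ‖p‖ ≤ 3 / 5 * s →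
    ∃ z ∈ M, ‖z - x - ι p‖ ≤ 1 / 1000 * s

/-! ### pushing -/

/-- the push at scale `t` -/
def S_PUSH : Prop := ∀ (m n : ℕ) (M : Set (E n)) (δ R : ℝ), IsCompact M → 0 < δ →
  δ ≤ 1 / 10 ^ 6 → LA m M δ R → AD m M δ R → ∀ t : ℝ, 0 < t → t < R →
  ∃ Ψ : E n → E n, ContinuousOn Ψ {w | ∃ z ∈ M, dist w z ≤ t / 200} ∧
    ∀ w, (∃ z ∈ M, dist w z ≤ t / 200) → dist (Ψ w) w ≤ t / 100 ∧ ∃ z ∈ M, dist (Ψ w) z ≤ t / 400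

/-- a disc near the plane and arbitrarily close to `M` -/
def S_NEAR : Prop := ∀ (m n : ℕ) (M : Set (E n)) (δ R : ℝ), IsCompact M → 0 < δ →
  δ ≤ 1 / 10 ^ 6 → LA m M δ R → AD m M δ R → ∀ x ∈ M, ∀ r : ℝ, 0 < r → r < R → ∀ ι : Fr m n,
  Fl M x r δ ι → ∀ e : ℝ, 0 < e → ∃ w : E m → E n, ContinuousOn w (closedBall 0 (11 / 10 * r)) ∧
    ∀ q : E m, ‖q‖ ≤ 11 / 10 * r → ‖w q - x - ι q‖ ≤ r / 25 ∧ ∃ z ∈ M, dist (w q) z ≤ e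

/-- surjectivity of the projection -/
def S_TOP : Prop := ∀ (m n : ℕ) (M : Set (E n)) (x : E n) (r b : ℝ) (ι : Fr m n), IsCompact M →
  0 < r → 0 ≤ b → b ≤ r / 20 → (∀ z ∈ M, dist z x ≤ r → ‖off ι (z - x)‖ ≤ b) →
  (∀ e : ℝ, 0 < e → ∃ w : E m → E n, ContinuousOn w (closedBall 0 (11 / 10 * r)) ∧
    ∀ q : E m, ‖q‖ ≤ 11 / 10 * r → ‖w q - x - ι q‖ ≤ r / 25 ∧ ∃ z ∈ M, dist (w q) z ≤ e) →
  ∀ q : E m, ‖q‖ ^ 2 ≤ r ^ 2 - b ^ 2 → ∃ z ∈ M, dist z x ≤ r ∧ ad ι (z - x) = q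

/-! ### the numbers -/

/-- the number `β^m_X` of the closed ball of centre `x` and radius `r` -/
def beta {n : ℕ} (m : ℕ) (X : Set (E n)) (x : E n) (r : ℝ) : ℝ :=
  r⁻¹ * sInf {s : ℝ | ∃ P : Submodule ℝ (E n), Module.finrank ℝ P = m ∧
    s = sSup {d : ℝ | ∃ z ∈ closedBall x r ∩ X, d = infDist z {w | w - x ∈ P}}}

/-- the number `θ^m_X` of the closed ball of centre `x` and radius `r` -/
def theta {n : ℕ} (m : ℕ) (X : Set (E n)) (x : E n) (r : ℝ) : ℝ :=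
  r⁻¹ * sInf {s : ℝ | ∃ P : Submodule ℝ (E n), Module.finrank ℝ P = m ∧
    s = hausdorffDist ({w | w - x ∈ P} ∩ closedBall x r) (X ∩ closedBall x r)}

/-- from beta to frames -/
def S_BET : Prop := ∀ (m n : ℕ) (X : Set (E n)) (x : E n) (r b : ℝ), m ≤ n → 0 < r →
  beta m X x r < b → ∃ ι : Fr m n, ∀ z ∈ X, dist z x ≤ r → ‖off ι (z - x)‖ ≤ b * r

/-- from frames to theta -/
def S_THE : Prop := ∀ (m n : ℕ) (X : Set (E n)) (x : E n) (r b δ : ℝ) (ι : Fr m n), x ∈ X →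
  0 < r → 0 < b → b ≤ δ → δ < 1 → (∀ z ∈ X, dist z x ≤ r → ‖off ι (z - x)‖ ≤ b * r) →
  (∀ q : E m, ‖q‖ ^ 2 ≤ r ^ 2 - (b * r) ^ 2 → ∃ z ∈ X, dist z x ≤ r ∧ ad ι (z - x) = q) →
  theta m X x r ≤ (1 + δ ^ 2 / 2) * b

/-- the theorem -/
def S_MAIN : Prop := ∀ m n : ℕ, 1 ≤ m → m ≤ n → ∃ δm : ℝ, 0 < δm ∧ δm < 1 ∧
  ∀ M : Set (E n), IsCompact M → Nonempty (ChartedSpace (E m) M) → ∀ δ R : ℝ, 0 < δ → δ < δm →
  0 < R → (∀ x ∈ M, ∀ r : ℝ, 0 < r → r < R → beta m M x r < δ) →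
  ∀ x ∈ M, ∀ r : ℝ, 0 < r → r < R → theta m M x r ≤ (1 + δ ^ 2 / 2) * beta m M x r

end Pool.Agent.Q77.BT
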